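import Mathlib

set_option autoImplicit false

/-! Definitions copied from the start file Pool/Agent/Results/MP_24ca2e_an/IsoDosSphere.lean. -/

namespace Pool.Agent.H431Z.Iso

open scoped ComplexConjugate ENNReal InnerProductSpace

/-- A multigraph with vertex type `V` and edge type `E`; each edge `e` joins `fst e` and `snd e`.
Multiple edges and self-loops (`fst e = snd e`) are allowed. -/
structure Multigraph (V E : Type) where
  fst : E → V
  snd : E → V

namespace Multigraph

variable {V E : Type} (G : Multigraph V E)

/-- A dart is an edge with an orientation; `src` is the vertex it issues from. -/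
def src (d : E × Bool) : V := if d.2 then G.fst d.1 else G.snd d.1

/-- The vertex a dart leads to. -/
def tgt (d : E × Bool) : V := if d.2 then G.snd d.1 else G.fst d.1

/-- The same edge with the opposite orientation. -/
def rev (d : E × Bool) : E × Bool := (d.1, !d.2)

/-- Any two vertices are joined by a chain of edges, and there is a vertex. -/
def Connected : Prop :=
  Nonempty V ∧ ∀ x y : V, Relation.ReflTransGen (fun z w => ∃ d, G.src d = z ∧ G.tgt d = w) x y

/-- The degree of a vertex; a self-loop contributes two darts. -/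
noncomputable def degree (x : V) : ℕ := Nat.card {d : E × Bool // G.src d = x}

/-- The universal cover of `G`: a tree with vertex set `T` together with the covering map.
`vert` is the covering map on vertices; if a dart `d` of `G` issues from `vert y`, then
`step y d` is the other end of the unique edge of the tree at `y` lying over `d`.
`lift x` is a chosen vertex over `x`. -/
structure UniversalCover where
  T : Type
  tree : SimpleGraph T
  isTree : tree.IsTree
  vert : T → V
  step : T → E × Bool → T
  vert_step : ∀ y d, G.src d = vert y → vert (step y d) = G.tgt d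
  step_rev : ∀ y d, G.src d = vert y → step (step y d) (rev d) = y
  step_inj : ∀ y d d', G.src d = vert y → G.src d' = vert y → step y d = step y d' → d = d'
  adj_iff : ∀ y z, tree.Adj y z ↔ ∃ d, G.src d = vert y ∧ step y d = z
  lift : V → T
  vert_lift : ∀ x, vert (lift x) = x

end Multigraph

/-- The Hilbert space of square-summable complex functions on `T`. -/
abbrev L2 (T : Type) : Type := lp (fun _ : T => ℂ) 2

/-! ### Truncated composition operators -/

section Comp

variable {T : Type}

open Classical in
/-- `(compFun S σ u) y = u (σ y)` for `y ∈ S` and `0` otherwise. -/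
noncomputable def compFun (S : Set T) (σ : T → T) (u : T → ℂ) (y : T) : ℂ :=
  if y ∈ S then u (σ y) else 0

theorem compFun_summable (S : Set T) (σ : T → T) (hσ : Set.InjOn σ S) (u : L2 T) :
    Summable (fun y => ‖compFun S σ u y‖ ^ 2) ∧
      ∑' y, ‖compFun S σ u y‖ ^ 2 ≤ ∑' y, ‖u y‖ ^ 2 := by
  have hu : Summable (fun y => ‖u y‖ ^ 2) := by
    have := (lp.memℓp u).summable (by norm_num)
    simpa using this
  have hinj : Function.Injective (fun y : S => σ y) := by
    intro a b hab
    exact Subtype.ext (hσ a.2 b.2 hab)
  have e : (fun y => ‖compFun S σ u y‖ ^ 2) = S.indicator (fun y => ‖u (σ y)‖ ^ 2) := by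
    funext y
    by_cases hy : y ∈ S <;> simp [compFun, hy]
  rw [e]
  constructor
  · rw [← summable_subtype_iff_indicator]
    exact hu.comp_injective hinj
  · rw [← tsum_subtype]
    exact tsum_comp_le_tsum_of_inj hu (fun _ => by positivity) hinj

theorem memℓp_of_summable (f : T → ℂ) (h : Summable (fun y => ‖f y‖ ^ 2)) :
    Memℓp f 2 := by
  refine memℓp_gen ?_
  simpa using h

theorem norm_sq_eq (u : L2 T) : ‖u‖ ^ 2 = ∑' y, ‖u y‖ ^ 2 := by
  have := lp.norm_rpow_eq_tsum (p := 2) (by norm_num) u
  simpa using this

/-- The truncated composition operator as a bounded operator. -/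
theorem exists_comp (S : Set T) (σ : T → T) (hσ : Set.InjOn σ S) :
    ∃ C : L2 T →L[ℂ] L2 T, ∀ u y, C u y = compFun S σ u y := by
  let L : L2 T →ₗ[ℂ] L2 T :=
    { toFun := fun u => ⟨compFun S σ u, memℓp_of_summable _ (compFun_summable S σ hσ u).1⟩
      map_add' := by
        intro u w
        ext y
        change compFun S σ (u + w : L2 T) y = compFun S σ u y + compFun S σ w y
        by_cases hy : y ∈ S <;> simp [compFun, hy]
      map_smul' := by
        intro c u
        ext y
        change compFun S σ (c • u : L2 T) y = c • compFun S σ u y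
        by_cases hy : y ∈ S <;> simp [compFun, hy] }
  refine ⟨L.mkContinuous 1 ?_, fun u y => rfl⟩
  intro u
  rw [one_mul]
  have h1 := (compFun_summable S σ hσ u).2
  have h2 : ‖L u‖ ^ 2 = ∑' y, ‖compFun S σ u y‖ ^ 2 := norm_sq_eq (L u)
  rw [← h2, ← norm_sq_eq] at h1
  exact (pow_le_pow_iff_left₀ (norm_nonneg _) (norm_nonneg _) two_ne_zero).1 h1

end Comp

section Op

variable {V E : Type} [Fintype E] [DecidableEq V] {G : Multigraph V E}

/-- The action of the lift of the Jacobi matrix `J = (b, a)` on functions on the tree: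
`(H u) y = b_{Ξ y} u y + ∑ a_{Ξ(y y')} u y'`, the sum over the neighbours `y'` of `y`, that is,
over the darts `d` of `G` that issue from `Ξ y = vert y`, with `y' = step y d`. -/
noncomputable def act (U : G.UniversalCover) (J : (V → ℝ) × (E → ℝ)) (u : U.T → ℂ) (y : U.T) : ℂ :=
  (J.1 (U.vert y) : ℂ) * u y +
    ∑ d : E × Bool, if G.src d = U.vert y then (J.2 d.1 : ℂ) * u (U.step y d) else 0

omit [Fintype E] [DecidableEq V] in
theorem step_injOn (U : G.UniversalCover) (d : E × Bool) :
    Set.InjOn (fun y => U.step y d) {y | G.src d = U.vert y} := by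
  intro y hy z hz h
  have h1 := U.step_rev y d hy
  have h2 := U.step_rev z d hz
  simp only at h
  rw [← h1, ← h2, h]

theorem exists_op [Fintype V] (U : G.UniversalCover) (J : (V → ℝ) × (E → ℝ)) :
    ∃ H : L2 U.T →L[ℂ] L2 U.T, ∀ (u : L2 U.T) (y : U.T), H u y = act U J u y := by
  classical
  choose C hC using fun d : E × Bool =>
    exists_comp {y | G.src d = U.vert y} (fun y => U.step y d) (step_injOn U d)
  choose P hP using fun x : V =>
    exists_comp {y | x = U.vert y} (fun y => y) (Set.injOn_id _)
  refine ⟨∑ x, (J.1 x : ℂ) • P x + ∑ d, (J.2 d.1 : ℂ) • C d, ?_⟩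
  intro u y
  simp only [add_apply, sum_apply,
    smul_apply, lp.coeFn_add, Pi.add_apply, lp.coeFn_sum, Finset.sum_apply,
    lp.coeFn_smul, Pi.smul_apply, hP, hC, compFun, smul_eq_mul, act, Set.mem_ofPred_eq, mul_ite,
    mul_zero]
  congr 1
  simp

/-- The lift `H` of the Jacobi matrix `J` to `ℓ²` of the tree, as a bounded operator. -/
noncomputable def op [Fintype V] (U : G.UniversalCover) (J : (V → ℝ) × (E → ℝ)) :
    L2 U.T →L[ℂ] L2 U.T := (exists_op U J).choose

end Op

open Classical in
/-- The unit vector at the vertex `y`. -/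
noncomputable def delta {T : Type} (y : T) : L2 T := lp.single 2 y 1

/-- `f(A)` for a bounded self-adjoint operator `A` on a Hilbert space: the continuous functional
calculus. -/
noncomputable def funCalc {𝓗 : Type} [NormedAddCommGroup 𝓗] [InnerProductSpace ℂ 𝓗]
    [CompleteSpace 𝓗] (f : ℝ → ℝ) (A : 𝓗 →L[ℂ] 𝓗) : 𝓗 →L[ℂ] 𝓗 := cfc f A

section

variable {V E : Type} [Fintype V] [Fintype E] [DecidableEq V] {G : Multigraph V E}

/-- The integral of `f` against the density of states of `J`:
`(1/p) ∑_x ⟨δ_x̃, f(H) δ_x̃⟩`, with `f(H)` given by the continuous functional calculus. -/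
noncomputable def dos (U : G.UniversalCover) (J : (V → ℝ) × (E → ℝ)) (f : ℝ → ℝ) : ℝ :=
  (∑ x : V, (⟪delta (U.lift x), funCalc f (op U J) (delta (U.lift x))⟫_ℂ).re) / Fintype.card V

/-- The IsoDOS set of `J₀`: all Jacobi matrices on `G` with the same density of states. -/
def isoDOS (U : G.UniversalCover) (J₀ : (V → ℝ) × (E → ℝ)) : Set ((V → ℝ) × (E → ℝ)) :=
  {J | (∀ e, 0 < J.2 e) ∧ ∀ f : ℝ → ℝ, Continuous f → dos U J f = dos U J₀ f}

end

end Pool.Agent.H431Z.Iso
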