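import Mathlib
import Pool.Agent.H431Z.Iso.Defs

set_option autoImplicit false

/-! Lemmas copied from the start file Pool/Agent/Results/MP_24ca2e_an/IsoDosSphere.lean. -/

namespace Pool.Agent.H431Z.Iso

open scoped ComplexConjugate ENNReal InnerProductSpace

namespace Multigraph

variable {V E : Type} {G : Multigraph V E}

theorem rev_rev (d : E × Bool) : rev (rev d) = d := by
  rcases d with ⟨e, b⟩; simp [rev]

theorem src_rev (d : E × Bool) : G.src (rev d) = G.tgt d := by
  rcases d with ⟨e, b⟩; cases b <;> simp [rev, src, tgt]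

theorem tgt_rev (d : E × Bool) : G.tgt (rev d) = G.src d := by
  rcases d with ⟨e, b⟩; cases b <;> simp [rev, src, tgt]

end Multigraph

section Comp

variable {T : Type}

theorem comp_inner (S S' : Set T) (σ σ' : T → T) (h1 : ∀ y ∈ S, σ y ∈ S')
    (h2 : ∀ z ∈ S', σ' z ∈ S) (h3 : ∀ y ∈ S, σ' (σ y) = y) (h4 : ∀ z ∈ S', σ (σ' z) = z)
    (u w : T → ℂ) :
    ∑' y, ⟪compFun S σ u y, w y⟫_ℂ = ∑' z, ⟪u z, compFun S' σ' w z⟫_ℂ := by
  have e1 : (fun y => ⟪compFun S σ u y, w y⟫_ℂ) = S.indicator (fun y => ⟪u (σ y), w y⟫_ℂ) := by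
    funext y
    by_cases hy : y ∈ S <;> simp [compFun, hy]
  have e2 : (fun z => ⟪u z, compFun S' σ' w z⟫_ℂ) =
      S'.indicator (fun z => ⟪u z, w (σ' z)⟫_ℂ) := by
    funext y
    by_cases hy : y ∈ S' <;> simp [compFun, hy]
  rw [e1, e2, ← tsum_subtype, ← tsum_subtype]
  let e : S ≃ S' :=
    { toFun := fun y => ⟨σ y, h1 y y.2⟩
      invFun := fun z => ⟨σ' z, h2 z z.2⟩
      left_inv := fun y => Subtype.ext (h3 y y.2)
      right_inv := fun z => Subtype.ext (h4 z z.2) }
  rw [← e.tsum_eq]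
  refine tsum_congr fun y => ?_
  change ⟪u (σ y), w y⟫_ℂ = ⟪u (σ y), w (σ' (σ y))⟫_ℂ
  rw [h3 y y.2]

end Comp

section Op

variable {V E : Type} [Fintype E] [DecidableEq V] {G : Multigraph V E}

theorem op_apply [Fintype V] (U : G.UniversalCover) (J : (V → ℝ) × (E → ℝ)) (u : L2 U.T) (y : U.T) :
    op U J u y = act U J u y := (exists_op U J).choose_spec u y

theorem op_decomp [Fintype V] (U : G.UniversalCover) :
    ∃ (P : V → (L2 U.T →L[ℂ] L2 U.T)) (C : E × Bool → (L2 U.T →L[ℂ] L2 U.T)),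
      (∀ x u y, P x u y = compFun {y | x = U.vert y} (fun y => y) u y) ∧
      (∀ d u y, C d u y = compFun {y | G.src d = U.vert y} (fun y => U.step y d) u y) ∧
      ∀ J : (V → ℝ) × (E → ℝ), op U J = ∑ x, (J.1 x : ℂ) • P x + ∑ d, (J.2 d.1 : ℂ) • C d := by
  classical
  choose C hC using fun d : E × Bool =>
    exists_comp {y | G.src d = U.vert y} (fun y => U.step y d) (step_injOn U d)
  choose P hP using fun x : V =>
    exists_comp {y | x = U.vert y} (fun y => y) (Set.injOn_id _)
  refine ⟨P, C, hP, hC, fun J => ?_⟩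
  ext u y
  rw [op_apply]
  simp only [add_apply, sum_apply,
    smul_apply, lp.coeFn_add, Pi.add_apply, lp.coeFn_sum, Finset.sum_apply,
    lp.coeFn_smul, Pi.smul_apply, hP, hC, compFun, smul_eq_mul, act, Set.mem_ofPred_eq, mul_ite,
    mul_zero]
  congr 1
  simp

/-- The lift is symmetric. -/
theorem op_inner [Fintype V] (U : G.UniversalCover) (J : (V → ℝ) × (E → ℝ)) (u w : L2 U.T) :
    ⟪op U J u, w⟫_ℂ = ⟪u, op U J w⟫_ℂ := by
  obtain ⟨P, C, hP, hC, hJ⟩ := op_decomp U
  have h1 : ∀ x, ⟪P x u, w⟫_ℂ = ⟪u, P x w⟫_ℂ := by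
    intro x
    simp only [lp.inner_eq_tsum, hP]
    exact comp_inner _ _ _ _ (fun y hy => hy) (fun y hy => hy) (fun y hy => rfl)
      (fun y hy => rfl) u w
  have h2 : ∀ d, ⟪C d u, w⟫_ℂ = ⟪u, C (Multigraph.rev d) w⟫_ℂ := by
    intro d
    simp only [lp.inner_eq_tsum, hC]
    refine comp_inner _ _ _ _ ?_ ?_ ?_ ?_ u w
    · intro y hy
      have hy' : G.src d = U.vert y := hy
      change G.src (Multigraph.rev d) = U.vert (U.step y d)
      rw [U.vert_step y d hy', Multigraph.src_rev]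
    · intro z hz
      have hz' : G.src (Multigraph.rev d) = U.vert z := hz
      change G.src d = U.vert (U.step z (Multigraph.rev d))
      rw [U.vert_step z _ hz', Multigraph.tgt_rev]
    · intro y hy
      exact U.step_rev y d hy
    · intro z hz
      have := U.step_rev z _ hz
      rwa [Multigraph.rev_rev] at this
  rw [hJ J]
  simp only [add_apply, sum_apply, smul_apply, inner_add_left, inner_add_right, sum_inner,
    inner_sum, inner_smul_left, inner_smul_right, Complex.conj_ofReal, h1, h2]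
  congr 1
  refine Fintype.sum_equiv (Function.Involutive.toPerm Multigraph.rev Multigraph.rev_rev) _ _ ?_
  intro d
  rfl

theorem op_selfAdjoint [Fintype V] (U : G.UniversalCover) (J : (V → ℝ) × (E → ℝ)) :
    IsSelfAdjoint (op U J) := by
  rw [ContinuousLinearMap.isSelfAdjoint_iff_isSymmetric]
  intro u w
  exact op_inner U J u w

end Op

theorem delta_apply_self {T : Type} (y : T) : delta y y = 1 := by
  simp [delta]

theorem delta_apply_ne {T : Type} (y z : T) (h : z ≠ y) : delta y z = 0 := by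
  simp [delta, h]

open Classical in
theorem delta_apply {T : Type} (y z : T) : delta y z = if z = y then 1 else 0 := by
  by_cases h : z = y
  · subst h; simp [delta_apply_self]
  · simp [delta_apply_ne _ _ h, h]

theorem norm_delta {T : Type} (y : T) : ‖delta y‖ = 1 := by
  simp [delta, lp.norm_single]

theorem inner_delta_left {T : Type} (y : T) (u : L2 T) : ⟪delta y, u⟫_ℂ = u y := by
  simp [delta, lp.inner_single_left]

theorem inner_delta_right {T : Type} (y : T) (u : L2 T) : ⟪u, delta y⟫_ℂ = conj (u y) := by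
  simp [delta, lp.inner_single_right]

section Calc

variable {𝓗 : Type} [NormedAddCommGroup 𝓗] [InnerProductSpace ℂ 𝓗] [CompleteSpace 𝓗]

theorem funCalc_poly (A : 𝓗 →L[ℂ] 𝓗) (hA : IsSelfAdjoint A) (p : Polynomial ℝ) :
    funCalc (fun x => p.eval x) A = ∑ n ∈ Finset.range (p.natDegree + 1),
      ((p.coeff n : ℝ) : ℂ) • A ^ n := by
  unfold funCalc
  rw [cfc_polynomial p A hA, Polynomial.aeval_eq_sum_range]
  rfl

theorem norm_funCalc_sub_le (A : 𝓗 →L[ℂ] 𝓗) (hA : IsSelfAdjoint A) (f g : ℝ → ℝ)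
    (hf : Continuous f) (hg : Continuous g) (C ε : ℝ) (hC : ‖A‖ ≤ C) (hε : 0 ≤ ε)
    (h : ∀ x, |x| ≤ C → |f x - g x| ≤ ε) : ‖funCalc f A - funCalc g A‖ ≤ ε := by
  unfold funCalc
  rw [← cfc_sub (a := A) f g hf.continuousOn hg.continuousOn]
  refine norm_cfc_le hε ?_
  intro x hx
  have hx' : ‖x‖ ≤ C := by
    refine le_trans ?_ hC
    by_cases hn : Nontrivial (𝓗 →L[ℂ] 𝓗)
    · exact spectrum.norm_le_norm_of_mem hx
    · rw [not_nontrivial_iff_subsingleton] at hn
      rw [spectrum.of_subsingleton] at hx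
      exact absurd hx (Set.notMem_empty x)
  exact h x hx'

end Calc

section

variable {V E : Type} [Fintype V] [Fintype E] [DecidableEq V] {G : Multigraph V E}

/-- Unnormalised trace over a fundamental set of vertices. -/
noncomputable def tr (U : G.UniversalCover) (H : L2 U.T →L[ℂ] L2 U.T) : ℝ :=
  ∑ x : V, (⟪delta (U.lift x), H (delta (U.lift x))⟫_ℂ).re

omit [Fintype E] [DecidableEq V] in
theorem tr_add (U : G.UniversalCover) (H K : L2 U.T →L[ℂ] L2 U.T) :
    tr U (H + K) = tr U H + tr U K := by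
  simp [tr, inner_add_right, Finset.sum_add_distrib]

omit [Fintype E] [DecidableEq V] in
theorem tr_sub (U : G.UniversalCover) (H K : L2 U.T →L[ℂ] L2 U.T) :
    tr U (H - K) = tr U H - tr U K := by
  simp [tr, inner_sub_right, Finset.sum_sub_distrib]

omit [Fintype E] [DecidableEq V] in
theorem tr_smul (U : G.UniversalCover) (c : ℝ) (H : L2 U.T →L[ℂ] L2 U.T) :
    tr U ((c : ℂ) • H) = c * tr U H := by
  simp only [tr, Finset.mul_sum]
  refine Finset.sum_congr rfl fun x _ => ?_
  rw [smul_apply, inner_smul_right]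
  simp

omit [Fintype E] [DecidableEq V] in
theorem tr_sum (U : G.UniversalCover) {ι : Type} (s : Finset ι)
    (H : ι → (L2 U.T →L[ℂ] L2 U.T)) :
    tr U (∑ i ∈ s, H i) = ∑ i ∈ s, tr U (H i) := by
  classical
  induction s using Finset.induction_on with
  | empty => simp [tr]
  | insert i s hi ih => rw [Finset.sum_insert hi, Finset.sum_insert hi, tr_add, ih]

omit [Fintype E] [DecidableEq V] in
theorem abs_tr_le (U : G.UniversalCover) (H : L2 U.T →L[ℂ] L2 U.T) :
    |tr U H| ≤ Fintype.card V * ‖H‖ := by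
  unfold tr
  calc |∑ x : V, (⟪delta (U.lift x), H (delta (U.lift x))⟫_ℂ).re|
      ≤ ∑ x : V, |(⟪delta (U.lift x), H (delta (U.lift x))⟫_ℂ).re| := Finset.abs_sum_le_sum_abs _ _
    _ ≤ ∑ x : V, ‖H‖ := by
        refine Finset.sum_le_sum fun x _ => ?_
        calc |(⟪delta (U.lift x), H (delta (U.lift x))⟫_ℂ).re|
            ≤ ‖⟪delta (U.lift x), H (delta (U.lift x))⟫_ℂ‖ := Complex.abs_re_le_norm _
          _ ≤ ‖delta (U.lift x)‖ * ‖H (delta (U.lift x))‖ := norm_inner_le_norm _ _
          _ ≤ 1 * (‖H‖ * 1) := by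
              rw [norm_delta]
              have := H.le_opNorm (delta (U.lift x))
              rw [norm_delta] at this
              linarith
          _ = ‖H‖ := by ring
    _ = Fintype.card V * ‖H‖ := by simp

theorem dos_eq_tr (U : G.UniversalCover) (J : (V → ℝ) × (E → ℝ)) (f : ℝ → ℝ) :
    dos U J f = tr U (funCalc f (op U J)) / Fintype.card V := rfl

theorem tr_poly (U : G.UniversalCover) (J : (V → ℝ) × (E → ℝ)) (p : Polynomial ℝ) :
    tr U (funCalc (fun x => p.eval x) (op U J)) =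
      ∑ n ∈ Finset.range (p.natDegree + 1), p.coeff n * tr U (op U J ^ n) := by
  rw [funCalc_poly _ (op_selfAdjoint U J), tr_sum]
  exact Finset.sum_congr rfl fun n _ => tr_smul _ _ _

theorem dos_eq_of_moments (U : G.UniversalCover) (J J' : (V → ℝ) × (E → ℝ))
    (h : ∀ n, tr U (op U J ^ n) = tr U (op U J' ^ n)) (f : ℝ → ℝ) (hf : Continuous f) :
    dos U J f = dos U J' f := by
  have hsa := op_selfAdjoint U J
  have hsa' := op_selfAdjoint U J'
  rw [dos_eq_tr, dos_eq_tr]
  congr 1
  by_contra hne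
  set C : ℝ := max ‖op U J‖ ‖op U J'‖ with hC
  set D : ℝ := |tr U (funCalc f (op U J)) - tr U (funCalc f (op U J'))| with hD
  have hDpos : 0 < D := abs_pos.2 (sub_ne_zero.2 hne)
  set ε : ℝ := D / (4 * (Fintype.card V + 1)) with hε
  have hεpos : 0 < ε := by positivity
  obtain ⟨p, hp⟩ := exists_polynomial_near_of_continuousOn (-C) C f hf.continuousOn ε hεpos
  have key : ∀ J₁ : (V → ℝ) × (E → ℝ), ‖op U J₁‖ ≤ C →
      |tr U (funCalc f (op U J₁)) - tr U (funCalc (fun x => p.eval x) (op U J₁))| ≤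
        Fintype.card V * ε := by
    intro J₁ hJ₁
    rw [← tr_sub]
    refine (abs_tr_le _ _).trans ?_
    refine mul_le_mul_of_nonneg_left ?_ (by positivity)
    refine norm_funCalc_sub_le _ (op_selfAdjoint U J₁) _ _ hf (Polynomial.continuous p) C ε hJ₁
      hεpos.le ?_
    intro x hx
    rw [abs_le] at hx
    have := hp x ⟨hx.1, hx.2⟩
    rw [abs_sub_comm]
    exact this.le
  have k1 := key J (le_max_left _ _)
  have k2 := key J' (le_max_right _ _)
  have hpeq : tr U (funCalc (fun x => p.eval x) (op U J)) =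
      tr U (funCalc (fun x => p.eval x) (op U J')) := by
    rw [tr_poly, tr_poly]
    simp only [h]
  have : D ≤ 2 * (Fintype.card V * ε) := by
    rw [hD]
    rw [hpeq] at k1
    rw [abs_le] at k1 k2 ⊢
    constructor <;> linarith [k1.1, k1.2, k2.1, k2.2]
  have h4 : (4 * ((Fintype.card V : ℝ) + 1)) * ε = D := by
    rw [hε]; field_simp
  nlinarith [hεpos, this, h4]

theorem moments_of_dos_eq [Nonempty V] (U : G.UniversalCover) (J J' : (V → ℝ) × (E → ℝ))
    (h : ∀ f : ℝ → ℝ, Continuous f → dos U J f = dos U J' f) (n : ℕ) :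
    tr U (op U J ^ n) = tr U (op U J' ^ n) := by
  have h1 := h (fun x => (Polynomial.X ^ n : Polynomial ℝ).eval x) (Polynomial.continuous _)
  rw [dos_eq_tr, dos_eq_tr] at h1
  have hc : (Fintype.card V : ℝ) ≠ 0 := by
    exact_mod_cast Fintype.card_ne_zero
  have h2 := (div_left_inj' hc).1 h1
  rw [tr_poly, tr_poly] at h2
  simpa [Polynomial.coeff_X_pow] using h2

end

/-- A predicate invariant along all edges but one shows that this edge is a bridge. -/
theorem isBridge_of_pred {W : Type} (Γ : SimpleGraph W) (v w : W) (ψ : W → Prop)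
    (h : ∀ x y, Γ.Adj x y → s(x, y) ≠ s(v, w) → (ψ x ↔ ψ y)) (hv : ¬ ψ v) (hw : ψ w) :
    Γ.IsBridge s(v, w) := by
  rw [SimpleGraph.isBridge_iff]
  rintro ⟨p⟩
  have : ∀ (x y : W) (q : (Γ.deleteEdges {s(v, w)}).Walk x y), ψ x ↔ ψ y := by
    intro x y q
    induction q with
    | nil => exact Iff.rfl
    | cons hadj _ ih =>
      rw [SimpleGraph.deleteEdges_adj] at hadj
      exact (h _ _ hadj.1 (fun e => hadj.2 (by simp [e]))).trans ih
  exact hv ((this v w p).2 hw)

end Pool.Agent.H431Z.Iso
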