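import Mathlib
import Pool.Agent.H431Z.Iso.Basic

set_option autoImplicit false
set_option linter.unusedVariables false

namespace Pool.Agent.H431Z.Iso

open Multigraph

section cover

variable {V E : Type} (G : Multigraph V E) (x0 : V)

/-- end point of a reversed walk -/
def endp : List (E × Bool) → V
  | [] => x0
  | d :: _ => G.tgt d

/-- reduced reversed walks -/
def ok : List (E × Bool) → Prop
  | [] => True
  | d :: l => G.src d = endp G x0 l ∧ l.head? ≠ some (rev d) ∧ ok l

/-- vertices of the cover -/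
abbrev CT : Type := {l : List (E × Bool) // ok G x0 l}

lemma ok_tail {l : List (E × Bool)} (h : ok G x0 l) : ok G x0 l.tail := by
  cases l with
  | nil => exact h
  | cons d l => exact h.2.2

open Classical in
/-- one step in the cover -/
noncomputable def cstep (y : CT G x0) (d : E × Bool) : CT G x0 :=
  if h : G.src d = endp G x0 y.1 ∧ y.1.head? ≠ some (rev d) then ⟨d :: y.1, h.1, h.2, y.2⟩
  else ⟨y.1.tail, ok_tail G x0 y.2⟩

/-- the tree -/
def ctree : SimpleGraph (CT G x0) where
  Adj y z := (∃ d, z.1 = d :: y.1) ∨ ∃ d, y.1 = d :: z.1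
  symm := ⟨fun _ _ h => h.symm⟩
  loopless := ⟨by
    rintro y (⟨d, h⟩ | ⟨d, h⟩) <;> exact absurd (congrArg List.length h) (by simp)⟩

lemma cstep_cases (y : CT G x0) (d : E × Bool) (h : G.src d = endp G x0 y.1) :
    ((cstep G x0 y d).1 = d :: y.1 ∧ y.1.head? ≠ some (rev d)) ∨
      y.1 = rev d :: (cstep G x0 y d).1 := by
  unfold cstep
  split_ifs with h1
  · exact Or.inl ⟨rfl, h1.2⟩
  · right
    have h2 : y.1.head? = some (rev d) := by
      by_contra h2; exact h1 ⟨h, h2⟩
    obtain ⟨l, hl⟩ := y
    cases l with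
    | nil => simp at h2
    | cons e l => simp at h2; simp [h2]

lemma cstep_cons (y z : CT G x0) (d : E × Bool) (h : z.1 = d :: y.1) :
    G.src d = endp G x0 y.1 ∧ cstep G x0 y d = z := by
  have hz := z.2
  rw [h] at hz
  refine ⟨hz.1, Subtype.ext ?_⟩
  rcases cstep_cases G x0 y d hz.1 with e | e
  · rw [e.1, h]
  · exact absurd (by rw [e]; rfl) hz.2.1

lemma cstep_back (y z : CT G x0) (d : E × Bool) (h : y.1 = d :: z.1) :
    G.src (rev d) = endp G x0 y.1 ∧ cstep G x0 y (rev d) = z := by
  have h1 : G.src (rev d) = endp G x0 y.1 := by rw [h, src_rev]; rfl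
  refine ⟨h1, Subtype.ext ?_⟩
  rcases cstep_cases G x0 y (rev d) h1 with e | e
  · exact absurd (by rw [h, rev_rev]; rfl) e.2
  · rw [h] at e
    exact (List.cons.inj e).2.symm

lemma endp_cstep (y : CT G x0) (d : E × Bool) (h : G.src d = endp G x0 y.1) :
    endp G x0 (cstep G x0 y d).1 = G.tgt d := by
  rcases cstep_cases G x0 y d h with e | e
  · rw [e.1]; rfl
  · have := y.2
    rw [e] at this
    rw [← this.1, src_rev]

lemma ctree_isTree : (ctree G x0).IsTree := by
  have h0 : ∀ (l : List (E × Bool)) (h : ok G x0 l), (ctree G x0).Reachable ⟨[], trivial⟩ ⟨l, h⟩ := by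
    intro l
    induction l with
    | nil => intro h; rfl
    | cons d l ih =>
      intro h
      exact (ih h.2.2).trans (SimpleGraph.Adj.reachable (Or.inl ⟨d, rfl⟩))
  refine ⟨{ preconnected := fun y z => (h0 y.1 y.2).symm.trans (h0 z.1 z.2)
            nonempty := ⟨⟨[], trivial⟩⟩ }, ?_⟩
  have key : ∀ y z : CT G x0, (∃ d, z.1 = d :: y.1) → (ctree G x0).IsBridge s(y, z) := by
    rintro y z ⟨d, hd⟩
    have k : ∀ a b : CT G x0, (∃ e, b.1 = e :: a.1) → s(a, b) ≠ s(y, z) →
        (z.1 <:+ a.1 ↔ z.1 <:+ b.1) := by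
      rintro a b ⟨e, he⟩ hne
      rw [he, List.suffix_cons_iff]
      refine ⟨Or.inr, fun h => h.resolve_left fun h1 => hne ?_⟩
      have e1 : b = z := Subtype.ext (he.trans h1.symm)
      have e2 : a = y := Subtype.ext (List.cons.inj (h1.symm.trans hd)).2
      rw [e1, e2]
    refine isBridge_of_pred _ y z (fun l => z.1 <:+ l.1) ?_ ?_ (List.suffix_refl _)
    · rintro a b (h | h) hne
      · exact k a b h hne
      · exact (k b a h (by rwa [Sym2.eq_swap])).symm
    · intro h
      have := h.length_le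
      rw [hd] at this
      simp at this
  rw [SimpleGraph.isAcyclic_iff_forall_adj_isBridge]
  rintro y z (h | h)
  · exact key y z h
  · rw [Sym2.eq_swap]; exact key z y h

theorem exists_cover (hG : G.Connected) : Nonempty G.UniversalCover := by
  obtain ⟨⟨x0⟩, hc⟩ := hG
  have hs : ∀ x, ∃ y : CT G x0, endp G x0 y.1 = x := by
    intro x
    induction hc x0 x with
    | refl => exact ⟨⟨[], trivial⟩, rfl⟩
    | tail _ h ih =>
      obtain ⟨y, rfl⟩ := ih
      obtain ⟨d, h1, rfl⟩ := h
      exact ⟨cstep G x0 y d, endp_cstep G x0 y d h1⟩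
  choose lift hl using hs
  refine ⟨⟨CT G x0, ctree G x0, ctree_isTree G x0, fun y => endp G x0 y.1, cstep G x0,
    endp_cstep G x0, fun y d h => ?_, fun y d d' h h' e => ?_, fun y z => ?_, lift, hl⟩⟩
  · rcases cstep_cases G x0 y d h with e | e
    · exact (cstep_back G x0 _ _ d e.1).2
    · exact (cstep_cons G x0 _ _ _ e).2
  · rcases cstep_cases G x0 y d h with e1 | e1 <;> rcases cstep_cases G x0 y d' h' with e2 | e2
    · rw [e] at e1
      exact (List.cons.inj (e1.1.symm.trans e2.1)).1
    · rw [← e, e1.1] at e2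
      exact absurd (congrArg List.length e2) (by simp; omega)
    · rw [e, e2.1] at e1
      exact absurd (congrArg List.length e1) (by simp; omega)
    · have := (List.cons.inj (e1.symm.trans e2)).1
      rw [← rev_rev d, this, rev_rev]
  · constructor
    · rintro (⟨d, h⟩ | ⟨d, h⟩)
      · exact ⟨d, cstep_cons G x0 y z d h⟩
      · exact ⟨rev d, cstep_back G x0 y z d h⟩
    · rintro ⟨d, h, rfl⟩
      rcases cstep_cases G x0 y d h with e | e
      · exact Or.inl ⟨d, e.1⟩
      · exact Or.inr ⟨_, e⟩

end cover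

section moments

open PowerSeries

variable {V E : Type} [Fintype V] [Fintype E] [DecidableEq V] [DecidableEq E] {G : Multigraph V E}
  (U : G.UniversalCover) (r : U.T)

omit [Fintype V] [Fintype E] [DecidableEq V] [DecidableEq E] in
lemma exists_par {y : U.T} (hy : y ≠ r) :
    ∃ d, G.src d = U.vert y ∧ U.tree.dist r (U.step y d) + 1 = U.tree.dist r y := by
  obtain ⟨p, hp⟩ := U.isTree.connected.exists_walk_length_eq_dist y r
  cases p with
  | nil => exact absurd rfl hy
  | @cons _ z _ h q =>
    obtain ⟨d, h1, rfl⟩ := (U.adj_iff _ _).1 h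
    refine ⟨d, h1, ?_⟩
    have h2 := SimpleGraph.dist_le q
    rw [SimpleGraph.Walk.length_cons, SimpleGraph.dist_comm] at hp
    rw [SimpleGraph.dist_comm] at h2
    rcases U.isTree.dist_eq_dist_add_one_of_adj r h with e | e <;> omega

omit [Fintype V] [Fintype E] [DecidableEq V] [DecidableEq E] in
lemma par_unique {y : U.T} {d d' : E × Bool} (h : G.src d = U.vert y) (h' : G.src d' = U.vert y)
    (e : U.tree.dist r (U.step y d) + 1 = U.tree.dist r y)
    (e' : U.tree.dist r (U.step y d') + 1 = U.tree.dist r y) : d = d' := by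
  refine U.step_inj y d d' h h' ?_
  have a : U.tree.Adj y (U.step y d) := (U.adj_iff _ _).2 ⟨d, h, rfl⟩
  have a' : U.tree.Adj y (U.step y d') := (U.adj_iff _ _).2 ⟨d', h', rfl⟩
  obtain ⟨p, hp⟩ := U.isTree.connected.exists_walk_length_eq_dist (U.step y d) r
  obtain ⟨p', hp'⟩ := U.isTree.connected.exists_walk_length_eq_dist (U.step y d') r
  have q : (SimpleGraph.Walk.cons a p).IsPath :=
    SimpleGraph.Walk.isPath_of_length_eq_dist _ (by
      rw [SimpleGraph.Walk.length_cons, hp, SimpleGraph.dist_comm, e, SimpleGraph.dist_comm])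
  have q' : (SimpleGraph.Walk.cons a' p').IsPath :=
    SimpleGraph.Walk.isPath_of_length_eq_dist _ (by
      rw [SimpleGraph.Walk.length_cons, hp', SimpleGraph.dist_comm, e', SimpleGraph.dist_comm])
  have := congrArg (fun w : U.tree.Path y r => w.1.getVert 1)
    (U.isTree.isAcyclic.path_unique ⟨_, q⟩ ⟨_, q'⟩)
  simpa using this

variable (J : (V → ℝ) × (E → ℝ)) (g : E × Bool → ℝ⟦X⟧) (G0 : ℝ⟦X⟧)

open Classical in
/-- the formal Green function -/
noncomputable def uu (y : U.T) : ℝ⟦X⟧ :=
  if h : y = r then G0 else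
    C (J.2 (exists_par U r h).choose.1) * g (rev (exists_par U r h).choose) *
      uu (U.step y (exists_par U r h).choose)
termination_by U.tree.dist r y
decreasing_by have := (exists_par U r h).choose_spec.2; omega

omit [Fintype V] [Fintype E] [DecidableEq V] [DecidableEq E] in
lemma uu_root : uu U r J g G0 r = G0 := by rw [uu, dif_pos rfl]

omit [Fintype V] [Fintype E] [DecidableEq V] [DecidableEq E] in
lemma uu_par {y : U.T} {d : E × Bool} (h : G.src d = U.vert y)
    (e : U.tree.dist r (U.step y d) + 1 = U.tree.dist r y) :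
    uu U r J g G0 y = C (J.2 d.1) * g (rev d) * uu U r J g G0 (U.step y d) := by
  have hy : y ≠ r := by
    rintro rfl
    simp at e
  rw [uu, dif_neg hy]
  have := par_unique U r (exists_par U r hy).choose_spec.1 h (exists_par U r hy).choose_spec.2 e
  rw [this]

omit [Fintype V] [Fintype E] [DecidableEq V] [DecidableEq E] in
lemma uu_child {y : U.T} {d : E × Bool} (h : G.src d = U.vert y)
    (e : U.tree.dist r (U.step y d) + 1 ≠ U.tree.dist r y) :
    uu U r J g G0 (U.step y d) = C (J.2 d.1) * g d * uu U r J g G0 y := by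
  have a : U.tree.Adj y (U.step y d) := (U.adj_iff _ _).2 ⟨d, h, rfl⟩
  have h1 : G.src (rev d) = U.vert (U.step y d) := by rw [src_rev, U.vert_step y d h]
  have h2 := uu_par U r J g G0 h1 (by
    rw [U.step_rev y d h]
    rcases U.isTree.dist_eq_dist_add_one_of_adj r a with e' | e' <;> omega)
  rw [h2, rev_rev, U.step_rev y d h]
  rfl

open Classical in
omit [Fintype V] in
lemma uu_eq (hg : ∀ d, g d = X + X * (C (J.1 (G.tgt d)) +
      ∑ d', if G.src d' = G.tgt d ∧ d' ≠ rev d then C (J.2 d'.1) ^ 2 * g d' else 0) * g d)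
    (hG : G0 = X + X * (C (J.1 (U.vert r)) +
      ∑ d', if G.src d' = U.vert r then C (J.2 d'.1) ^ 2 * g d' else 0) * G0) (y : U.T) :
    uu U r J g G0 y = X * ((if y = r then 1 else 0) + (C (J.1 (U.vert y)) * uu U r J g G0 y +
      ∑ d, if G.src d = U.vert y then C (J.2 d.1) * uu U r J g G0 (U.step y d) else 0)) := by
  by_cases hy : y = r
  · subst hy
    have : ∀ d, (if G.src d = U.vert y then C (J.2 d.1) * uu U y J g G0 (U.step y d) else 0) =
        (if G.src d = U.vert y then C (J.2 d.1) ^ 2 * g d else 0) * G0 := by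
      intro d
      split_ifs with h
      · rw [uu_child U y J g G0 h (by simp), uu_root]; ring
      · simp
    simp only [this, ← Finset.sum_mul, uu_root, if_true]
    linear_combination hG
  · obtain ⟨d0, h1, h2⟩ := exists_par U r hy
    have h3 := hg (rev d0)
    rw [tgt_rev, h1, rev_rev] at h3
    have : ∀ d, (if G.src d = U.vert y then C (J.2 d.1) * uu U r J g G0 (U.step y d) else 0) =
        (if G.src d = U.vert y ∧ d ≠ d0 then C (J.2 d.1) ^ 2 * g d else 0) * uu U r J g G0 y +
          if d = d0 then C (J.2 d0.1) * uu U r J g G0 (U.step y d0) else 0 := by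
      intro d
      by_cases hd : d = d0
      · subst hd; simp [h1]
      · by_cases h : G.src d = U.vert y
        · rw [uu_child U r J g G0 h fun e => hd (par_unique U r h h1 e h2)]
          simp only [h, hd, if_true, if_false, ne_eq, not_false_eq_true, and_self]
          ring
        · simp [h, hd]
    simp only [this, Finset.sum_add_distrib, ← Finset.sum_mul, Finset.sum_ite_eq', Finset.mem_univ,
      if_true, if_neg hy]
    have h4 := uu_par U r J g G0 h1 h2
    generalize uu U r J g G0 (U.step y d0) = w at h4 ⊢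
    rw [h4]
    linear_combination (C (J.2 d0.1) * w) * h3

theorem moment_eq (hg : ∀ d, g d = X + X * (C (J.1 (G.tgt d)) +
      ∑ d', if G.src d' = G.tgt d ∧ d' ≠ rev d then C (J.2 d'.1) ^ 2 * g d' else 0) * g d)
    (hG : G0 = X + X * (C (J.1 (U.vert r)) +
      ∑ d', if G.src d' = U.vert r then C (J.2 d'.1) ^ 2 * g d' else 0) * G0) (n : ℕ) :
    (op U J ^ n) (delta r) r = (coeff (n + 1) G0 : ℝ) := by
  classical
  have key : ∀ n y, (op U J ^ n) (delta r) y = (coeff (n + 1) (uu U r J g G0 y) : ℝ) := by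
    have h0 : ∀ y, coeff 0 (uu U r J g G0 y) = 0 := by
      intro y; rw [uu_eq U r J g G0 hg hG y]; simp
    have h1 : ∀ n y, ((coeff (n + 1) (uu U r J g G0 y) : ℝ) : ℂ) =
        (if n = 0 ∧ y = r then 1 else 0) + act U J (fun y => (coeff n (uu U r J g G0 y) : ℝ)) y := by
      intro n y
      conv_lhs => rw [uu_eq U r J g G0 hg hG y]
      rw [coeff_succ_X_mul, map_add, map_add, map_sum, coeff_C_mul, act]
      push_cast
      congr 1
      · by_cases h : y = r <;> by_cases h' : n = 0 <;> simp [h, h', coeff_one]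
      · congr 1
        refine Finset.sum_congr rfl fun d _ => ?_
        split_ifs
        · rw [coeff_C_mul]; push_cast; rfl
        · simp
    intro n
    induction n with
    | zero =>
      intro y
      rw [h1]
      simp [act, h0, delta_apply]
    | succ n ih =>
      intro y
      rw [h1, pow_succ', ContinuousLinearMap.mul_apply, op_apply]
      simp only [Nat.succ_ne_zero, false_and, if_false, zero_add]
      congr 1
      funext z
      exact ih z
  rw [key, uu_root]

theorem tr_pow_eq (Gv : V → ℝ⟦X⟧) (hg : ∀ d, g d = X + X * (C (J.1 (G.tgt d)) +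
      ∑ d', if G.src d' = G.tgt d ∧ d' ≠ rev d then C (J.2 d'.1) ^ 2 * g d' else 0) * g d)
    (hG : ∀ x, Gv x = X + X * (C (J.1 x) +
      ∑ d', if G.src d' = x then C (J.2 d'.1) ^ 2 * g d' else 0) * Gv x) (n : ℕ) :
    tr U (op U J ^ n) = coeff (n + 1) (∑ x, Gv x) := by
  rw [tr, map_sum]
  refine Finset.sum_congr rfl fun x _ => ?_
  rw [inner_delta_left, moment_eq U (U.lift x) J g (Gv x) hg (by rw [U.vert_lift]; exact hG x)]
  simp

end moments

end Pool.Agent.H431Z.Iso
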