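import Mathlib

set_option autoImplicit false
set_option linter.unusedVariables false

namespace Pool.Agent.H431Z.Iso

open PowerSeries

section fix

variable {ι : Type} (Φ : (ι → ℝ⟦X⟧) → ι → ℝ⟦X⟧)
  (hΦ : ∀ (k : ℕ) (s s' : ι → ℝ⟦X⟧), (∀ i, X ^ k ∣ s i - s' i) → ∀ i, X ^ (k + 1) ∣ Φ s i - Φ s' i)
include hΦ

lemma fix_unique {s s' : ι → ℝ⟦X⟧} (h : Φ s = s) (h' : Φ s' = s') : s = s' := by
  have key : ∀ k i, X ^ k ∣ s i - s' i := by
    intro k
    induction k with
    | zero => intro i; simp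
    | succ k ih => intro i; have := hΦ k s s' ih i; rwa [h, h'] at this
  funext i
  ext n
  have := X_pow_dvd_iff.1 (key (n + 1) i) n (Nat.lt_succ_self n)
  rwa [map_sub, sub_eq_zero] at this

lemma fix_exists : ∃ s, Φ s = s := by
  have h1 : ∀ k m i, X ^ k ∣ Φ^[k + m] 0 i - Φ^[k] 0 i := by
    intro k m
    induction k with
    | zero => intro i; simp
    | succ k ih =>
      intro i
      rw [Nat.add_right_comm, Function.iterate_succ_apply', Function.iterate_succ_apply']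
      exact hΦ k _ _ ih i
  let s : ι → ℝ⟦X⟧ := fun i => PowerSeries.mk fun n => coeff n (Φ^[n + 1] 0 i)
  have h2 : ∀ k i, X ^ k ∣ s i - Φ^[k] 0 i := by
    intro k i
    refine X_pow_dvd_iff.2 fun n hn => ?_
    obtain ⟨m, rfl⟩ : ∃ m, k = n + 1 + m := ⟨k - (n + 1), by omega⟩
    have := X_pow_dvd_iff.1 (h1 (n + 1) m i) n (Nat.lt_succ_self n)
    rw [map_sub, sub_eq_zero] at this ⊢
    rw [this, coeff_mk]
  refine ⟨s, funext fun i => ?_⟩
  ext n
  have a := X_pow_dvd_iff.1 (hΦ n _ _ (h2 n) i) n (Nat.lt_succ_self n)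
  rw [map_sub, sub_eq_zero] at a
  rw [a, coeff_mk, Function.iterate_succ_apply']

end fix

section sys

variable {A B : Type} [Add A] [Mul A] [Add B] [Mul B]

/-- contribution of a loop -/
def TT (α p h : A) : A := α * (p * p) * h

/-- the cavity system of the core graph -/
def Psi (o : A) (c : Fin 15 → A) (s : Fin 12 → A) : Fin 12 → A
  | 0 => o + c 2 * s 0
  | 1 => o + c 3 * s 1
  | 2 => o + c 4 * s 2
  | 3 => o + c 5 * s 3
  | 4 => o + (c 0 + c 11 * s 0 + c 12 * s 1 + TT (c 6) (s 0) (s 4) + TT (c 7) (s 1) (s 5) +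
      TT (c 7) (s 1) (s 5) + c 10 * s 9) * s 4
  | 5 => o + (c 0 + c 11 * s 0 + c 12 * s 1 + TT (c 6) (s 0) (s 4) + TT (c 6) (s 0) (s 4) +
      TT (c 7) (s 1) (s 5) + c 10 * s 9) * s 5
  | 6 => o + (c 1 + c 13 * s 2 + c 14 * s 3 + TT (c 8) (s 2) (s 6) + TT (c 9) (s 3) (s 7) +
      TT (c 9) (s 3) (s 7) + c 10 * s 8) * s 6
  | 7 => o + (c 1 + c 13 * s 2 + c 14 * s 3 + TT (c 8) (s 2) (s 6) + TT (c 8) (s 2) (s 6) +
      TT (c 9) (s 3) (s 7) + c 10 * s 8) * s 7
  | 8 => o + (c 0 + c 11 * s 0 + c 12 * s 1 + TT (c 6) (s 0) (s 4) + TT (c 6) (s 0) (s 4) +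
      TT (c 7) (s 1) (s 5) + TT (c 7) (s 1) (s 5)) * s 8
  | 9 => o + (c 1 + c 13 * s 2 + c 14 * s 3 + TT (c 8) (s 2) (s 6) + TT (c 8) (s 2) (s 6) +
      TT (c 9) (s 3) (s 7) + TT (c 9) (s 3) (s 7)) * s 9
  | 10 => o + (c 0 + c 11 * s 0 + c 12 * s 1 + TT (c 6) (s 0) (s 4) + TT (c 6) (s 0) (s 4) +
      TT (c 7) (s 1) (s 5) + TT (c 7) (s 1) (s 5) + c 10 * s 9) * s 10
  | 11 => o + (c 1 + c 13 * s 2 + c 14 * s 3 + TT (c 8) (s 2) (s 6) + TT (c 8) (s 2) (s 6) +
      TT (c 9) (s 3) (s 7) + TT (c 9) (s 3) (s 7) + c 10 * s 8) * s 11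

/-- Green function at a middle vertex -/
def GW (α ρ p h g : A) : A := p + g * (ρ * (p * p) + p * TT α p h + p * TT α p h)

/-- trace of the Green function -/
def Stot (c : Fin 15 → A) (s : Fin 12 → A) : A :=
  s 10 + s 11 + GW (c 6) (c 11) (s 0) (s 4) (s 10) + GW (c 7) (c 12) (s 1) (s 5) (s 10) +
    GW (c 8) (c 13) (s 2) (s 6) (s 11) + GW (c 9) (c 14) (s 3) (s 7) (s 11)

variable (Rl : A → B → Prop) (hadd : ∀ a b a' b', Rl a a' → Rl b b' → Rl (a + b) (a' + b'))
  (hmul : ∀ a b a' b', Rl a a' → Rl b b' → Rl (a * b) (a' * b'))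
  {c : Fin 15 → A} {c' : Fin 15 → B} (hc : ∀ j, Rl (c j) (c' j))
  {s : Fin 12 → A} {s' : Fin 12 → B} (hs : ∀ i, Rl (s i) (s' i))
include hadd hmul hc hs

lemma Psi_rel {o : A} {o' : B} (ho : Rl o o') (i : Fin 12) : Rl (Psi o c s i) (Psi o' c' s' i) := by
  fin_cases i <;> simp only [Psi, TT] <;>
    repeat' first | exact ho | exact hc _ | exact hs _ | apply hadd | apply hmul

lemma Stot_rel : Rl (Stot c s) (Stot c' s') := by
  simp only [Stot, GW, TT]
  repeat' first | exact hc _ | exact hs _ | apply hadd | apply hmul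

end sys

lemma Psi_contr (c : Fin 15 → ℝ⟦X⟧) (k : ℕ) (s s' : Fin 12 → ℝ⟦X⟧) (h : ∀ i, X ^ k ∣ s i - s' i)
    (i : Fin 12) : X ^ (k + 1) ∣ X * Psi 1 c s i - X * Psi 1 c s' i := by
  rw [← mul_sub, pow_succ']
  refine mul_dvd_mul_left _ (Psi_rel (fun a b => X ^ k ∣ a - b) ?_ ?_ (fun j => by simp) h (by simp) i)
  · intro a b a' b' h1 h2
    have : a + b - (a' + b') = (a - a') + (b - b') := by ring
    rw [this]; exact dvd_add h1 h2
  · intro a b a' b' h1 h2
    have : a * b - a' * b' = (a - a') * b + a' * (b - b') := by ring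
    rw [this]; exact dvd_add (h1.mul_right _) (h2.mul_left _)

/-- solutions of the system -/
def IsSol (d : Fin 15 → ℝ) (s : Fin 12 → ℝ⟦X⟧) : Prop := ∀ i, s i = X * Psi 1 (fun j => C (d j)) s i

lemma exists_sol (d : Fin 15 → ℝ) : ∃ s, IsSol d s := by
  obtain ⟨s, hs⟩ := fix_exists (fun s i => X * Psi 1 (fun j => C (d j)) s i) (Psi_contr _)
  exact ⟨s, fun i => (congrFun hs i).symm⟩

/-- the solution -/
noncomputable def sol (d : Fin 15 → ℝ) : Fin 12 → ℝ⟦X⟧ := (exists_sol d).choose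

lemma sol_spec (d : Fin 15 → ℝ) : IsSol d (sol d) := (exists_sol d).choose_spec

lemma IsSol.eq {d : Fin 15 → ℝ} {s : Fin 12 → ℝ⟦X⟧} (h : IsSol d s) : s = sol d :=
  fix_unique (fun s i => X * Psi 1 (fun j => C (d j)) s i) (Psi_contr _)
    (funext fun i => (h i).symm) (funext fun i => (sol_spec d i).symm)

/-- generating function of the moments -/
noncomputable def SS (d : Fin 15 → ℝ) : ℝ⟦X⟧ := Stot (fun j => C (d j)) (sol d)

/-! ### jets -/

/-- sum of vectors -/
def vadd : List ℕ → List ℕ → List ℕ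
  | [], m => m
  | a :: l, [] => a :: l
  | a :: l, b :: m => (a + b) :: vadd l m

lemma vadd_getD : ∀ (l m : List ℕ) (j : ℕ), (vadd l m).getD j 0 = l.getD j 0 + m.getD j 0
  | [], m, j => by simp [vadd]
  | a :: l, [], j => by simp [vadd]
  | a :: l, b :: m, 0 => by simp [vadd]
  | a :: l, b :: m, j + 1 => by
    simp only [vadd, List.getD_cons_succ]
    exact vadd_getD l m j

lemma map_getD (c : ℕ) (l : List ℕ) (j : ℕ) : (l.map (c * ·)).getD j 0 = c * l.getD j 0 := by
  simp only [List.getD_eq_getElem?_getD, List.getElem?_map]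
  cases l[j]? <;> simp

/-- jets -/
abbrev Jet : Type := ℕ × List ℕ
/-- sum of jets -/
def jadd (a b : Jet) : Jet := (a.1 + b.1, vadd a.2 b.2)
/-- product of jets -/
def jmul (a b : Jet) : Jet := (a.1 * b.1, vadd (b.2.map (a.1 * ·)) (a.2.map (b.1 * ·)))

/-- truncated series of jets -/
structure TS where
  l : List Jet
deriving DecidableEq

/-- coefficient -/
def TS.at (a : TS) (n : ℕ) : Jet := a.l.getD n (0, [])

/-- sum of lists of jets -/
def sadd : List Jet → List Jet → List Jet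
  | [], m => m
  | a :: l, [] => a :: l
  | a :: l, b :: m => jadd a b :: sadd l m

/-- convolution -/
def conv (a b : TS) (n : ℕ) : ℕ → Jet
  | 0 => (0, [])
  | i + 1 => jadd (conv a b n i) (jmul (a.at i) (b.at (n - i)))

instance : Add TS := ⟨fun a b => ⟨sadd a.l b.l⟩⟩
instance : Mul TS := ⟨fun a b => ⟨(List.range 15).map fun n => conv a b n (n + 1)⟩⟩

/-- multiplication by the variable -/
def TS.shift (a : TS) : TS := ⟨(0, List.replicate 15 0) :: a.l.take 14⟩

/-- linear form with given coefficients -/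
noncomputable def lin (g : List ℕ) : (Fin 15 → ℝ) →L[ℝ] ℝ :=
  ∑ j : Fin 15, ((g.getD j 0 : ℕ) : ℝ) • ContinuousLinearMap.proj (R := ℝ) (φ := fun _ => ℝ) j

lemma lin_apply (g : List ℕ) (v : Fin 15 → ℝ) : lin g v = ∑ j : Fin 15, (g.getD j 0 : ℕ) * v j := by
  simp [lin]

lemma lin_vadd (l m : List ℕ) : lin (vadd l m) = lin l + lin m := by
  ext v
  simp only [lin_apply, vadd_getD, ContinuousLinearMap.add_apply, Nat.cast_add, add_mul,
    Finset.sum_add_distrib]

lemma lin_map (c : ℕ) (l : List ℕ) : lin (l.map (c * ·)) = (c : ℝ) • lin l := by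
  ext v
  simp only [lin_apply, map_getD, ContinuousLinearMap.smul_apply, Nat.cast_mul, smul_eq_mul,
    Finset.mul_sum, mul_assoc]

variable (d0 : Fin 15 → ℝ)

/-- value and derivative at the base point -/
def AD (f : (Fin 15 → ℝ) → ℝ) (a : Jet) : Prop := f d0 = a.1 ∧ HasStrictFDerivAt f (lin a.2) d0

variable {d0}

lemma AD.add {f g : (Fin 15 → ℝ) → ℝ} {a b : Jet} (h : AD d0 f a) (h' : AD d0 g b) :
    AD d0 (fun d => f d + g d) (jadd a b) :=
  ⟨by simp [jadd, h.1, h'.1], by rw [jadd, lin_vadd]; exact h.2.add h'.2⟩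

lemma AD.mul {f g : (Fin 15 → ℝ) → ℝ} {a b : Jet} (h : AD d0 f a) (h' : AD d0 g b) :
    AD d0 (fun d => f d * g d) (jmul a b) :=
  ⟨by simp [jmul, h.1, h'.1], by
    rw [jmul, lin_vadd, lin_map, lin_map, ← h.1, ← h'.1]; exact h.2.mul h'.2⟩

lemma AD.const (v : ℕ) {g : List ℕ} (hg : ∀ j, g.getD j 0 = 0) : AD d0 (fun _ => (v : ℝ)) (v, g) := by
  refine ⟨rfl, ?_⟩
  have : lin g = 0 := by ext v; simp only [lin_apply, hg]; simp
  rw [this]
  exact hasStrictFDerivAt_const _ _

variable (d0) in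
/-- the first `k` coefficients have the given jets -/
def Rel (k : ℕ) (F : (Fin 15 → ℝ) → ℝ⟦X⟧) (a : TS) : Prop :=
  ∀ n < k, AD d0 (fun d => coeff n (F d)) (a.at n)

lemma jadd_zero (a : Jet) : jadd a (0, []) = a := by
  obtain ⟨v, g⟩ := a
  cases g <;> simp [jadd, vadd]

lemma zero_jadd (a : Jet) : jadd (0, []) a = a := by simp [jadd, vadd]

lemma sadd_getD : ∀ (l m : List Jet) (j : ℕ),
    (sadd l m).getD j (0, []) = jadd (l.getD j (0, [])) (m.getD j (0, []))
  | [], m, j => by simp [sadd, zero_jadd]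
  | a :: l, [], j => by simp [sadd, jadd_zero]
  | a :: l, b :: m, 0 => by simp [sadd]
  | a :: l, b :: m, j + 1 => by
    simp only [sadd, List.getD_cons_succ]
    exact sadd_getD l m j

lemma Rel.add {k : ℕ} (F G : (Fin 15 → ℝ) → ℝ⟦X⟧) (a b : TS) (h : Rel d0 k F a) (h' : Rel d0 k G b) :
    Rel d0 k (F + G) (a + b) := by
  intro n hn
  have e : (a + b).at n = jadd (a.at n) (b.at n) := sadd_getD _ _ _
  rw [e]
  simpa only [Pi.add_apply, map_add] using (h n hn).add (h' n hn)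

lemma Rel.mul {k : ℕ} (hk : k ≤ 15) (F G : (Fin 15 → ℝ) → ℝ⟦X⟧) (a b : TS) (h : Rel d0 k F a)
    (h' : Rel d0 k G b) : Rel d0 k (F * G) (a * b) := by
  intro n hn
  have e : (a * b).at n = conv a b n (n + 1) := by
    change ((List.range 15).map fun n => conv a b n (n + 1)).getD n (0, []) = _
    rw [List.getD_eq_getElem _ _ (by simp; omega)]
    simp
  have key : ∀ i ≤ n + 1, AD d0 (fun d => ∑ j ∈ Finset.range i, coeff j (F d) * coeff (n - j) (G d))
      (conv a b n i) := by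
    intro i
    induction i with
    | zero => intro _; simpa [conv] using AD.const (d0 := d0) 0 (g := []) (by simp)
    | succ i ih =>
      intro hi
      simp only [Finset.sum_range_succ]
      exact (ih (by omega)).add ((h i (by omega)).mul (h' (n - i) (by omega)))
  rw [e]
  simpa only [Pi.mul_apply, coeff_mul, Finset.Nat.sum_antidiagonal_eq_sum_range_succ_mk]
    using key (n + 1) le_rfl

lemma Rel.shift {k : ℕ} (hk : k ≤ 14) {F : (Fin 15 → ℝ) → ℝ⟦X⟧} {a : TS} (h : Rel d0 k F a) :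
    Rel d0 (k + 1) (fun d => X * F d) a.shift := by
  intro n hn
  rcases n with _ | n
  · simpa [TS.shift, TS.at] using AD.const (d0 := d0) 0 (g := List.replicate 15 0) (by
      intro j; simp only [List.getD_eq_getElem?_getD, List.getElem?_replicate]; split_ifs <;> rfl)
  · have e : a.shift.at (n + 1) = a.at n := by
      simp only [TS.shift, TS.at, List.getD_eq_getElem?_getD, List.getElem?_cons_succ]
      rw [List.getElem?_take_of_lt (by omega)]
    rw [e]
    simpa only [coeff_succ_X_mul] using h n (by omega)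

/-- unit vector -/
def unitv (j : ℕ) : List ℕ := (List.range 15).map fun i => if i = j then 1 else 0

lemma Rel.var {b : Fin 15 → ℕ} (hb : ∀ j, d0 j = b j) (k : ℕ) (j : Fin 15) :
    Rel d0 k (fun d => C (d j)) ⟨[(b j, unitv j)]⟩ := by
  intro n hn
  rcases n with _ | n
  · refine ⟨by simp [TS.at, hb], ?_⟩
    have : lin (unitv j) = ContinuousLinearMap.proj (R := ℝ) (φ := fun _ => ℝ) j := by
      ext v
      rw [lin_apply, Finset.sum_eq_single j]
      · rw [List.getD_eq_getElem _ _ (by simp [unitv])]; simp [unitv]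
      · intro i _ hi
        rw [List.getD_eq_getElem _ _ (by simp [unitv])]
        simp [unitv, Fin.val_inj, hi]
      · simp
    simp only [TS.at, List.getD_cons_zero, this, coeff_zero_C]
    exact (ContinuousLinearMap.proj (R := ℝ) (φ := fun _ : Fin 15 => ℝ) j).hasStrictFDerivAt
  · simpa [TS.at, coeff_C] using AD.const (d0 := d0) 0 (g := []) (by simp)

lemma Rel.one (k : ℕ) : Rel d0 k 1 ⟨[(1, [])]⟩ := by
  intro n hn
  rcases n with _ | n
  · simpa [TS.at] using AD.const (d0 := d0) 1 (g := []) (by simp)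
  · simpa [TS.at, coeff_one] using AD.const (d0 := d0) 0 (g := []) (by simp)

lemma rel_SS {b : Fin 15 → ℕ} (hb : ∀ j, d0 j = b j) {L : Fin 12 → TS}
    (hL : ∀ i, (Psi ⟨[(1, [])]⟩ (fun j => ⟨[(b j, unitv j)]⟩) L i).shift = L i) :
    Rel d0 15 SS (Stot (fun j => ⟨[(b j, unitv j)]⟩) L) := by
  have key : ∀ k ≤ 15, ∀ i, Rel d0 k (fun d => sol d i) (L i) := by
    intro k
    induction k with
    | zero => intro _ i n hn; omega
    | succ k ih =>
      intro hk i
      have h1 := (Psi_rel (Rel d0 k) Rel.add (Rel.mul (by omega)) (Rel.var hb k) (ih (by omega))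
        (Rel.one k) i).shift (by omega)
      rw [hL] at h1
      have e : (fun d => sol d i) = fun d => X * Psi (1 : (Fin 15 → ℝ) → ℝ⟦X⟧)
          (fun j d => C (d j)) (fun i d => sol d i) i d := by
        funext d
        rw [sol_spec d i]
        congr 1
        exact (Psi_rel (fun (a : (Fin 15 → ℝ) → ℝ⟦X⟧) b => a d = b)
          (by rintro _ _ _ _ rfl rfl; rfl) (by rintro _ _ _ _ rfl rfl; rfl)
          (c := fun j d => C (d j)) (fun _ => rfl) (s := fun i d => sol d i)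
          (fun _ => rfl) (o := 1) rfl i).symm
      rw [e]
      exact h1
  exact Stot_rel (Rel d0 15) Rel.add (Rel.mul le_rfl) (Rel.var hb 15) (key 15 le_rfl)

end Pool.Agent.H431Z.Iso
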