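import Mathlib
import Pool.Agent.H431Z.Iso.Cover
import Pool.Agent.H431Z.Iso.Series

set_option autoImplicit false
set_option linter.unusedVariables false

namespace Pool.Agent.H431Z.Iso

open PowerSeries Multigraph

/-- two centres joined by an edge, each with two double edges to further vertices -/
def bell : Multigraph (Fin 6) (Fin 9) where
  fst := ![0, 0, 1, 1, 0, 0, 1, 1, 0]
  snd := ![2, 3, 4, 5, 2, 3, 4, 5, 1]

lemma bell_connected : bell.Connected := by
  refine ⟨⟨0⟩, ?_⟩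
  have h0 : ∀ d : Fin 9 × Bool, Relation.ReflTransGen
      (fun z w => ∃ d, bell.src d = z ∧ bell.tgt d = w) (bell.src d) (bell.tgt d) :=
    fun d => Relation.ReflTransGen.single ⟨d, rfl, rfl⟩
  have h1 : ∀ x, Relation.ReflTransGen (fun z w => ∃ d, bell.src d = z ∧ bell.tgt d = w) 0 x := by
    intro x
    fin_cases x
    · exact Relation.ReflTransGen.refl
    · exact h0 (8, true)
    · exact h0 (0, true)
    · exact h0 (1, true)
    · exact (h0 (8, true)).trans (h0 (2, true))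
    · exact (h0 (8, true)).trans (h0 (3, true))
  have h2 : ∀ x, Relation.ReflTransGen (fun z w => ∃ d, bell.src d = z ∧ bell.tgt d = w) x 0 := by
    intro x
    fin_cases x
    · exact Relation.ReflTransGen.refl
    · exact h0 (8, false)
    · exact h0 (0, false)
    · exact h0 (1, false)
    · exact (h0 (2, false)).trans (h0 (8, false))
    · exact (h0 (3, false)).trans (h0 (8, false))
  exact fun x y => (h2 x).trans (h1 y)

lemma bell_degree (x : Fin 6) : 2 ≤ bell.degree x := by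
  rw [degree, Nat.card_eq_fintype_card]
  revert x
  decide

/-- parameters -/
abbrev Par : Type := (Fin 6 → ℝ) × (Fin 9 → ℝ)

/-- the data on which the moments depend -/
noncomputable def data (J : Par) : Fin 15 → ℝ :=
  ![J.1 0, J.1 1, J.1 2, J.1 3, J.1 4, J.1 5, (J.2 0 * J.2 4) ^ 2, (J.2 1 * J.2 5) ^ 2,
    (J.2 2 * J.2 6) ^ 2, (J.2 3 * J.2 7) ^ 2, J.2 8 ^ 2, J.2 0 ^ 2 + J.2 4 ^ 2, J.2 1 ^ 2 + J.2 5 ^ 2,
    J.2 2 ^ 2 + J.2 6 ^ 2, J.2 3 ^ 2 + J.2 7 ^ 2]

section alg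

variable {R : Type} [CommRing R] [IsDomain R] {x β p q π h g F ιp ιq : R}

omit [IsDomain R] in
lemma algA (hπ : π = x * (1 + β * π)) (hι : ιq * (1 + q ^ 2 * π * h) = 1) :
    π + q ^ 2 * (π * π) * h = x + x * (β + q ^ 2 * (h * ιq)) * (π + q ^ 2 * (π * π) * h) := by
  linear_combination (1 + q ^ 2 * π * h) * hπ - x * q ^ 2 * h * π * hι

omit [IsDomain R] in
lemma algB (hh : h = x * (1 + (F + p ^ 2 * π) * h)) (hι : ιp * (1 + p ^ 2 * π * h) = 1) :
    h * ιp = x + x * F * (h * ιp) := by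
  linear_combination ιp * hh + x * hι

lemma algD (hx : x ≠ 0) (hπ : π = x * (1 + β * π)) (hh : h = x * (1 + F * h))
    (hg : g = x * (1 + (F + TT ((p * q) ^ 2) π h) * g)) (hιp : ιp * (1 + p ^ 2 * π * h) = 1)
    (hιq : ιq * (1 + q ^ 2 * π * h) = 1) :
    GW ((p * q) ^ 2) (p ^ 2 + q ^ 2) π h g = x + x * (β + (p ^ 2 * (h * ιp) + q ^ 2 * (h * ιq))) *
      GW ((p * q) ^ 2) (p ^ 2 + q ^ 2) π h g := by
  have h1 : g = h + g * h * TT ((p * q) ^ 2) π h := by
    refine mul_left_cancel₀ hx ?_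
    linear_combination (-g) * hh + h * hg
  have hπ0 : π ≠ 0 := by
    rintro rfl
    exact hx (by simpa using hπ.symm)
  set W := GW ((p * q) ^ 2) (p ^ 2 + q ^ 2) π h g with hW
  have h2 : W * (1 - h * TT ((p * q) ^ 2) π h) = π * (1 + p ^ 2 * π * h) * (1 + q ^ 2 * π * h) := by
    rw [hW]
    unfold GW
    unfold TT at h1 ⊢
    linear_combination ((p ^ 2 + q ^ 2) * (π * π) + 2 * π * ((p * q) ^ 2 * (π * π) * h)) * h1
  have h3 : ιp * ιq * (1 - h * TT ((p * q) ^ 2) π h) =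
      1 - p ^ 2 * π * h * ιp - q ^ 2 * π * h * ιq := by
    unfold TT
    linear_combination (1 - q ^ 2 * π * h * ιq) * hιp + (ιp - p ^ 2 * π * h * ιp * 0) * hιq * 1 +
      (ιq * q ^ 2 * π * h * 0) * hιp - (ιp * p ^ 2 * π * h) * 0 * hιq
  have h4 : W * (1 - p ^ 2 * π * h * ιp - q ^ 2 * π * h * ιq) = π := by
    rw [← h3]
    linear_combination ιp * ιq * h2 + π * (ιq * (1 + q ^ 2 * π * h)) * hιp + π * hιq
  refine mul_left_cancel₀ hπ0 ?_
  linear_combination W * hπ + x * h4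

end alg

lemma exists_inv (a : ℝ⟦X⟧) (h : constantCoeff a = 0) : ∃ ι : ℝ⟦X⟧, ι * (1 + a) = 1 :=
  ⟨(1 + a)⁻¹, PowerSeries.inv_mul_cancel _ (by simp [h])⟩

lemma sum9 {M : Type} [AddCommMonoid M] (f : Fin 9 → M) :
    ∑ e, f e = f 0 + f 1 + f 2 + f 3 + f 4 + f 5 + f 6 + f 7 + f 8 := by
  rw [Fin.sum_univ_castSucc, Fin.sum_univ_eight]
  rfl

lemma cases9 : ∀ e : Fin 9, e = 0 ∨ e = 1 ∨ e = 2 ∨ e = 3 ∨ e = 4 ∨ e = 5 ∨ e = 6 ∨ e = 7 ∨ e = 8 := by
  decide

lemma cases6 : ∀ e : Fin 6, e = 0 ∨ e = 1 ∨ e = 2 ∨ e = 3 ∨ e = 4 ∨ e = 5 := by decide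

theorem tr_bell (U : bell.UniversalCover) (J : Par) (n : ℕ) :
    tr U (op U J ^ n) = coeff (n + 1) (SS (data J)) := by
  have hs := sol_spec (data J)
  rw [SS]
  generalize sol (data J) = s at hs
  have h0 : ∀ i, constantCoeff (s i) = 0 := fun i => by rw [hs i]; simp
  have hι : ∀ (e : Fin 9) (i j : Fin 12), ∃ ι : ℝ⟦X⟧, ι * (1 + C (J.2 e) ^ 2 * s i * s j) = 1 :=
    fun e i j => exists_inv _ (by simp [h0])
  obtain ⟨ι0, k0⟩ := hι 0 0 4
  obtain ⟨ι1, k1⟩ := hι 1 1 5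
  obtain ⟨ι2, k2⟩ := hι 2 2 6
  obtain ⟨ι3, k3⟩ := hι 3 3 7
  obtain ⟨ι4, k4⟩ := hι 4 0 4
  obtain ⟨ι5, k5⟩ := hι 5 1 5
  obtain ⟨ι6, k6⟩ := hι 6 2 6
  obtain ⟨ι7, k7⟩ := hι 7 3 7
  have e0 := hs 0
  have e1 := hs 1
  have e2 := hs 2
  have e3 := hs 3
  have e4 := hs 4
  have e5 := hs 5
  have e6 := hs 6
  have e7 := hs 7
  have e8 := hs 8
  have e9 := hs 9
  have e10 := hs 10
  have e11 := hs 11
  simp only [Psi, data, Matrix.cons_val, map_add, map_pow, map_mul] at e0 e1 e2 e3 e4 e5 e6 e7 e8 e9 e10 e11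
  let gT : Fin 9 → ℝ⟦X⟧ := ![s 0 + C (J.2 4) ^ 2 * (s 0 * s 0) * s 4,
    s 1 + C (J.2 5) ^ 2 * (s 1 * s 1) * s 5, s 2 + C (J.2 6) ^ 2 * (s 2 * s 2) * s 6,
    s 3 + C (J.2 7) ^ 2 * (s 3 * s 3) * s 7, s 0 + C (J.2 0) ^ 2 * (s 0 * s 0) * s 4,
    s 1 + C (J.2 1) ^ 2 * (s 1 * s 1) * s 5, s 2 + C (J.2 2) ^ 2 * (s 2 * s 2) * s 6,
    s 3 + C (J.2 3) ^ 2 * (s 3 * s 3) * s 7, s 9]
  let gF : Fin 9 → ℝ⟦X⟧ := ![s 4 * ι0, s 5 * ι1, s 6 * ι2, s 7 * ι3, s 4 * ι4, s 5 * ι5, s 6 * ι6,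
    s 7 * ι7, s 8]
  let Gv : Fin 6 → ℝ⟦X⟧ := ![s 10, s 11,
    GW ((C (J.2 0) * C (J.2 4)) ^ 2) (C (J.2 0) ^ 2 + C (J.2 4) ^ 2) (s 0) (s 4) (s 10),
    GW ((C (J.2 1) * C (J.2 5)) ^ 2) (C (J.2 1) ^ 2 + C (J.2 5) ^ 2) (s 1) (s 5) (s 10),
    GW ((C (J.2 2) * C (J.2 6)) ^ 2) (C (J.2 2) ^ 2 + C (J.2 6) ^ 2) (s 2) (s 6) (s 11),
    GW ((C (J.2 3) * C (J.2 7)) ^ 2) (C (J.2 3) ^ 2 + C (J.2 7) ^ 2) (s 3) (s 7) (s 11)]
  rw [tr_pow_eq U J (fun d => if d.2 then gT d.1 else gF d.1) Gv]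
  · congr 1
    simp only [Fin.sum_univ_six, Gv, Stot, data, Matrix.cons_val, map_add, map_pow, map_mul]
  · rintro ⟨e, b⟩
    rcases cases9 e with rfl | rfl | rfl | rfl | rfl | rfl | rfl | rfl | rfl <;> cases b <;>
      simp +decide only [Fintype.sum_prod_type, sum9, Fintype.sum_bool, gT, gF, Gv, ↓reduceIte,
        add_zero, zero_add, Matrix.cons_val, bell, src, tgt, rev, Bool.false_eq_true]
    · refine algB ?_ k0
      simp only [TT] at e4
      linear_combination e4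
    · exact algA e0 k4
    · refine algB ?_ k1
      simp only [TT] at e5
      linear_combination e5
    · exact algA e1 k5
    · refine algB ?_ k2
      simp only [TT] at e6
      linear_combination e6
    · exact algA e2 k6
    · refine algB ?_ k3
      simp only [TT] at e7
      linear_combination e7
    · exact algA e3 k7
    · refine algB ?_ k4
      simp only [TT] at e4
      linear_combination e4
    · exact algA e0 k0
    · refine algB ?_ k5
      simp only [TT] at e5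
      linear_combination e5
    · exact algA e1 k1
    · refine algB ?_ k6
      simp only [TT] at e6
      linear_combination e6
    · exact algA e2 k2
    · refine algB ?_ k7
      simp only [TT] at e7
      linear_combination e7
    · exact algA e3 k3
    · simp only [TT] at e8
      linear_combination e8
    · simp only [TT] at e9
      linear_combination e9
  · intro x
    rcases cases6 x with rfl | rfl | rfl | rfl | rfl | rfl <;>
      simp +decide only [Fintype.sum_prod_type, sum9, Fintype.sum_bool, gT, gF, Gv, ↓reduceIte,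
        add_zero, zero_add, Matrix.cons_val, bell, src, tgt, rev, Bool.false_eq_true]
    · simp only [TT] at e10
      linear_combination e10
    · simp only [TT] at e11
      linear_combination e11
    · exact algD X_ne_zero e0 e4 (by linear_combination e10) k0 k4
    · exact algD X_ne_zero e1 e5 (by linear_combination e10) k1 k5
    · exact algD X_ne_zero e2 e6 (by linear_combination e11) k2 k6
    · exact algD X_ne_zero e3 e7 (by linear_combination e11) k3 k7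

end Pool.Agent.H431Z.Iso
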