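import Mathlib
import Pool.Agent.H431Z.Iso.Series

set_option autoImplicit false
set_option linter.unusedVariables false

namespace Pool.Agent.H431Z.Iso

open PowerSeries

lemma cases12 : ∀ e : Fin 12, e = 0 ∨ e = 1 ∨ e = 2 ∨ e = 3 ∨ e = 4 ∨ e = 5 ∨ e = 6 ∨ e = 7 ∨ e = 8 ∨
    e = 9 ∨ e = 10 ∨ e = 11 := by decide

lemma pi_eq {a b : ℝ⟦X⟧} {β : ℝ} (ha : a = X * (1 + C β * a)) (hb : b = X * (1 + C β * b)) : a = b := by
  have h : (1 - X * C β : ℝ⟦X⟧) ≠ 0 := fun h => by simpa using congrArg constantCoeff h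
  refine mul_left_cancel₀ h ?_
  linear_combination ha - hb

lemma SS_rho {d d' : Fin 15 → ℝ} (h : ∀ j : Fin 15, j.val ≤ 10 → d' j = d j) (h1 : d 2 = d 3)
    (h2 : d 4 = d 5) (h3 : d' 11 + d' 12 = d 11 + d 12) (h4 : d' 13 + d' 14 = d 13 + d 14) :
    SS d' = SS d := by
  have hs := sol_spec d
  have e0 : sol d 1 = sol d 0 := pi_eq (hs 1) (by rw [← h1]; exact hs 0)
  have e1 : sol d 3 = sol d 2 := pi_eq (hs 3) (by rw [← h2]; exact hs 2)
  have k3 : (C (d' 11) : ℝ⟦X⟧) + C (d' 12) = C (d 11) + C (d 12) := by rw [← map_add, h3, map_add]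
  have k4 : (C (d' 13) : ℝ⟦X⟧) + C (d' 14) = C (d 13) + C (d 14) := by rw [← map_add, h4, map_add]
  have a0 := h 0 (by decide)
  have a1 := h 1 (by decide)
  have a2 := h 2 (by decide)
  have a3 := h 3 (by decide)
  have a4 := h 4 (by decide)
  have a5 := h 5 (by decide)
  have a6 := h 6 (by decide)
  have a7 := h 7 (by decide)
  have a8 := h 8 (by decide)
  have a9 := h 9 (by decide)
  have a10 := h 10 (by decide)
  have hs' : IsSol d' (sol d) := by
    intro i
    have := hs i
    rcases cases12 i with rfl | rfl | rfl | rfl | rfl | rfl | rfl | rfl | rfl | rfl | rfl | rfl <;>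
      simp only [Psi, a0, a1, a2, a3, a4, a5, a6, a7, a8, a9, a10] at this ⊢
    · exact this
    · exact this
    · exact this
    · exact this
    · rw [e0] at this ⊢; linear_combination this - X * sol d 0 * sol d 4 * k3
    · rw [e0] at this ⊢; linear_combination this - X * sol d 0 * sol d 5 * k3
    · rw [e1] at this ⊢; linear_combination this - X * sol d 2 * sol d 6 * k4
    · rw [e1] at this ⊢; linear_combination this - X * sol d 2 * sol d 7 * k4
    · rw [e0] at this ⊢; linear_combination this - X * sol d 0 * sol d 8 * k3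
    · rw [e1] at this ⊢; linear_combination this - X * sol d 2 * sol d 9 * k4
    · rw [e0] at this ⊢; linear_combination this - X * sol d 0 * sol d 10 * k3
    · rw [e1] at this ⊢; linear_combination this - X * sol d 2 * sol d 11 * k4
  rw [SS, SS, ← hs'.eq]
  simp only [Stot, GW, a6, a7, a8, a9, e0, e1]
  linear_combination sol d 10 * sol d 0 * sol d 0 * k3 + sol d 11 * sol d 2 * sol d 2 * k4

/-- the gauge transformation -/
def gauge {A : Type} [Mul A] (φ ψ : A) (s : Fin 12 → A) : Fin 12 → A :=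
  ![s 2, s 2, s 0, s 0, ψ * s 4, ψ * s 5, φ * s 6, φ * s 7, ψ * s 8, φ * s 9, ψ * s 10, φ * s 11]

/-- data of the isolated point -/
def c2 : Fin 15 → ℕ := ![0, 2, 2, 2, 1, 1, 1, 16, 1, 16, 1, 2, 8, 2, 8]
/-- data on the circle -/
def c1 : Fin 15 → ℕ := ![1, 1, 1, 1, 2, 2, 1, 16, 1, 16, 1, 2, 9, 2, 8]

lemma gauge_field {K : Type} [Field K] (x : K) (hx : x ≠ 0) (h1 : 1 - x ≠ 0) (h2 : 1 - 2 * x ≠ 0)
    (s : Fin 12 → K) (hs : ∀ i, s i = x * Psi 1 (fun j => (c2 j : K)) s i) :
    (∀ i, gauge ((1 - 2 * x) / (1 - x)) ((1 - x) / (1 - 2 * x)) s i =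
      x * Psi 1 (fun j => (c1 j : K)) (gauge ((1 - 2 * x) / (1 - x)) ((1 - x) / (1 - 2 * x)) s) i) ∧
    Stot (fun j => (c1 j : K)) (gauge ((1 - 2 * x) / (1 - x)) ((1 - x) / (1 - 2 * x)) s) =
      Stot (fun j => (c2 j : K)) s := by
  have h2' : 1 - x * 2 ≠ 0 := by rwa [mul_comm]
  have e0 := hs 0
  have e1 := hs 1
  have e2 := hs 2
  have e3 := hs 3
  have e4 := hs 4
  have e5 := hs 5
  have e6 := hs 6
  have e7 := hs 7
  have e8 := hs 8
  have e9 := hs 9
  have e10 := hs 10
  have e11 := hs 11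
  simp only [Psi, TT, c2, Matrix.cons_val, Nat.cast_ofNat, Nat.cast_one, Nat.cast_zero]
    at e0 e1 e2 e3 e4 e5 e6 e7 e8 e9 e10 e11
  have p0 : s 0 = x / (1 - 2 * x) := by rw [eq_div_iff h2]; linear_combination e0
  have p1 : s 1 = x / (1 - 2 * x) := by rw [eq_div_iff h2]; linear_combination e1
  have p2 : s 2 = x / (1 - x) := by rw [eq_div_iff h1]; linear_combination e2
  have p3 : s 3 = x / (1 - x) := by rw [eq_div_iff h1]; linear_combination e3
  have q1 : s 10 = s 8 + s 10 * s 8 * s 9 := by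
    refine mul_left_cancel₀ hx ?_
    linear_combination (-s 10) * e8 + s 8 * e10
  have q2 : s 11 = s 9 + s 11 * s 9 * s 8 := by
    refine mul_left_cancel₀ hx ?_
    linear_combination (-s 11) * e9 + s 9 * e11
  have q3 : 1 - s 8 * s 9 ≠ 0 := by
    intro h
    have : s 8 = 0 := by linear_combination s 10 * h - q1
    rw [this] at h
    simp at h
  have q4 : s 8 * s 11 = s 9 * s 10 := by
    refine mul_left_cancel₀ q3 ?_
    linear_combination s 8 * q2 - s 9 * q1
  rw [p0, p1] at e4 e5 e8 e10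
  rw [p2, p3] at e6 e7 e9 e11
  refine ⟨fun i => ?_, ?_⟩
  · rcases cases12 i with rfl | rfl | rfl | rfl | rfl | rfl | rfl | rfl | rfl | rfl | rfl | rfl <;>
      simp only [Psi, TT, c1, gauge, Matrix.cons_val, Nat.cast_ofNat, Nat.cast_one, p0, p2]
    · field_simp; ring
    · field_simp; ring
    · field_simp; ring
    · field_simp; ring
    · linear_combination (norm := (field_simp; ring)) e4
    · linear_combination (norm := (field_simp; ring)) e5
    · linear_combination (norm := (field_simp; ring)) e6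
    · linear_combination (norm := (field_simp; ring)) e7
    · linear_combination (norm := (field_simp; ring)) e8
    · linear_combination (norm := (field_simp; ring)) e9
    · linear_combination (norm := (field_simp; ring)) e10
    · linear_combination (norm := (field_simp; ring)) e11
  · simp only [Stot, GW, TT, c1, c2, gauge, Matrix.cons_val, Nat.cast_ofNat, Nat.cast_one, p0, p1,
      p2, p3]
    linear_combination (norm := (field_simp; ring)) (1 / (1 - 2 * x) - 1 / (1 - x)) * e10 +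
      (1 / (1 - x) - 1 / (1 - 2 * x)) * e11 + (x / (1 - x) - x / (1 - 2 * x)) * q4

lemma SS_gauge : SS (fun j => (c1 j : ℝ)) = SS (fun j => (c2 j : ℝ)) := by
  let K := FractionRing ℝ⟦X⟧
  let f : ℝ⟦X⟧ →+* K := algebraMap _ _
  have hf : Function.Injective f := IsFractionRing.injective _ _
  have u1 : constantCoeff (1 - X : ℝ⟦X⟧) ≠ 0 := by simp
  have u2 : constantCoeff (1 - 2 * X : ℝ⟦X⟧) ≠ 0 := by simp
  have n1 : (1 : K) - f X ≠ 0 := by
    have : f (1 - X) ≠ 0 := fun h => u1 (by rw [(map_eq_zero_iff f hf).1 h]; simp)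
    simpa using this
  have n2 : (1 : K) - 2 * f X ≠ 0 := by
    have : f (1 - 2 * X) ≠ 0 := fun h => u2 (by rw [(map_eq_zero_iff f hf).1 h]; simp)
    simpa [map_ofNat] using this
  have nat1 : ∀ (c : Fin 15 → ℕ) (s : Fin 12 → ℝ⟦X⟧) (t : Fin 12 → K), (∀ i, f (s i) = t i) →
      (∀ i, f (Psi 1 (fun j => C (c j : ℝ)) s i) = Psi 1 (fun j => (c j : K)) t i) ∧
      f (Stot (fun j => C (c j : ℝ)) s) = Stot (fun j => (c j : K)) t := by
    intro c s t h
    have hadd : ∀ (a b : ℝ⟦X⟧) (a' b' : K), f a = a' → f b = b' → f (a + b) = a' + b' := by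
      rintro _ _ _ _ rfl rfl; exact map_add _ _ _
    have hmul : ∀ (a b : ℝ⟦X⟧) (a' b' : K), f a = a' → f b = b' → f (a * b) = a' * b' := by
      rintro _ _ _ _ rfl rfl; exact map_mul _ _ _
    have hc : ∀ j, f (C (c j : ℝ)) = (c j : K) := fun j => by simp
    exact ⟨Psi_rel (fun a b => f a = b) hadd hmul hc h (map_one f),
      Stot_rel (fun a b => f a = b) hadd hmul hc h⟩
  set s := sol (fun j => (c2 j : ℝ)) with hs
  have a1 := nat1 c2 s (fun i => f (s i)) fun _ => rfl
  obtain ⟨b1, b2⟩ := gauge_field (f X) (by simpa [map_eq_zero_iff f hf] using X_ne_zero) n1 n2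
    (fun i => f (s i)) (fun i => by rw [← a1.1, ← map_mul, ← sol_spec _ i])
  have hφ : f ((1 - 2 * X) * (1 - X)⁻¹) = (1 - 2 * f X) / (1 - f X) := by
    rw [eq_div_iff n1]
    have := congrArg f (PowerSeries.inv_mul_cancel _ u1)
    simp only [map_mul, map_sub, map_one, map_ofNat] at this ⊢
    linear_combination (1 - 2 * f X) * this
  have hψ : f ((1 - X) * (1 - 2 * X)⁻¹) = (1 - f X) / (1 - 2 * f X) := by
    rw [eq_div_iff n2]
    have := congrArg f (PowerSeries.inv_mul_cancel _ u2)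
    simp only [map_mul, map_sub, map_one, map_ofNat] at this ⊢
    linear_combination (1 - f X) * this
  have a2 := nat1 c1 (gauge ((1 - 2 * X) * (1 - X)⁻¹) ((1 - X) * (1 - 2 * X)⁻¹) s)
    (gauge ((1 - 2 * f X) / (1 - f X)) ((1 - f X) / (1 - 2 * f X)) fun i => f (s i)) (by
      intro i
      rcases cases12 i with rfl | rfl | rfl | rfl | rfl | rfl | rfl | rfl | rfl | rfl | rfl | rfl <;>
        simp only [gauge, Matrix.cons_val, ← hφ, ← hψ, ← map_mul])
  have a3 : IsSol (fun j => (c1 j : ℝ))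
      (gauge ((1 - 2 * X) * (1 - X)⁻¹) ((1 - X) * (1 - 2 * X)⁻¹) s) := by
    intro i
    apply hf
    rw [map_mul, a2.1, ← b1]
    rcases cases12 i with rfl | rfl | rfl | rfl | rfl | rfl | rfl | rfl | rfl | rfl | rfl | rfl <;>
      simp only [gauge, Matrix.cons_val, ← hφ, ← hψ, ← map_mul]
  apply hf
  rw [SS, SS, ← a3.eq, a2.2, b2, ← a1.2]

end Pool.Agent.H431Z.Iso
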