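import Mathlib
import Pool.Agent.H431Z.Iso.Core
import Pool.Agent.H431Z.Iso.Gauge
import Pool.Agent.H431Z.Iso.Cert

set_option autoImplicit false
set_option linter.unusedVariables false

namespace Pool.Agent.H431Z.Iso

open PowerSeries Filter Topology

/-- data of the isolated point -/
noncomputable def d2 : Fin 15 → ℝ := fun j => (c2 j : ℝ)

/-- thirteen moments and two coordinates -/
noncomputable def Ψ (d : Fin 15 → ℝ) (k : Fin 15) : ℝ :=
  if k.val < 13 then coeff (k.val + 2) (SS d) else if k.val = 13 then d 11 else d 13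

/-- the Jacobian as a linear map -/
noncomputable def AA : (Fin 15 → ℝ) →L[ℝ] Fin 15 → ℝ :=
  ContinuousLinearMap.pi fun k : Fin 15 => lin (Mrows.getD k [])

lemma Ψ_deriv : HasStrictFDerivAt Ψ AA d2 := by
  have hb : ∀ j, d2 j = bN j := fun j => rfl
  have h := rel_SS hb hLL
  rw [hLS] at h
  have hv : ∀ j : Fin 15, HasStrictFDerivAt (fun d : Fin 15 → ℝ => d j) (lin (unitv j)) d2 := by
    intro j
    simpa [TS.at] using (Rel.var hb 1 j 0 (by norm_num)).2
  refine hasStrictFDerivAt_pi.2 fun k => ?_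
  unfold Ψ
  split_ifs with h1 h2
  · rw [← hM k h1]
    exact (h (k + 2) (by omega)).2
  · rw [h2]
    exact hv 11
  · have : k.val = 14 := by omega
    rw [this]
    exact hv 13

lemma AA_inj : Function.Injective AA := by
  let M : Matrix (Fin 15) (Fin 15) ℤ := Matrix.of fun i j => ((Mrows.getD i []).getD j 0 : ℕ)
  let N : Matrix (Fin 15) (Fin 15) (ZMod 101) := Matrix.of fun i j => ((Nrows.getD i []).getD j 0 : ℕ)
  have h1 : M.map (Int.castRingHom (ZMod 101)) * N = 1 := by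
    ext i j
    have := congrArg (Nat.cast : ℕ → ZMod 101) (hMN i i.2 j j.2)
    rw [ZMod.natCast_mod, ← List.sum_toFinset _ List.nodup_range, List.toFinset_range] at this
    rw [Matrix.mul_apply, Matrix.one_apply]
    simp only [M, N, Matrix.map_apply, Matrix.of_apply, eq_intCast, Int.cast_natCast]
    rw [Finset.sum_range] at this
    push_cast at this
    rw [this]
    simp [Fin.val_inj]
  have h2 : M.det ≠ 0 := by
    intro h
    have := congrArg Matrix.det h1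
    rw [Matrix.det_mul, ← RingHom.mapMatrix_apply, ← RingHom.map_det, h] at this
    simp at this
    exact absurd this (by decide)
  have h3 : (M.map (Int.castRingHom ℝ)).det ≠ 0 := by
    rw [← RingHom.mapMatrix_apply, ← RingHom.map_det]
    simpa using h2
  rw [injective_iff_map_eq_zero]
  intro v hv
  refine Matrix.eq_zero_of_mulVec_eq_zero h3 ?_
  funext k
  have := congrFun hv k
  simp only [AA, ContinuousLinearMap.pi_apply, lin_apply] at this
  simpa only [Matrix.mulVec, dotProduct, M, Matrix.map_apply, Matrix.of_apply, eq_intCast,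
    Int.cast_natCast] using this

lemma Ψ_inj : ∃ g : (Fin 15 → ℝ) → Fin 15 → ℝ, ∀ᶠ d in 𝓝 d2, g (Ψ d) = d := by
  let e : (Fin 15 → ℝ) ≃L[ℝ] Fin 15 → ℝ :=
    (LinearEquiv.ofInjectiveEndo AA.toLinearMap AA_inj).toContinuousLinearEquiv
  have h : HasStrictFDerivAt Ψ (e : (Fin 15 → ℝ) →L[ℝ] Fin 15 → ℝ) d2 := Ψ_deriv
  exact ⟨_, h.eventually_left_inverse⟩

/-- the isolated point -/
def J2 : Par := (![0, 2, 2, 2, 1, 1], ![1, 2, 1, 2, 1, 2, 1, 2, 1])

lemma cases15 : ∀ e : Fin 15, e = 0 ∨ e = 1 ∨ e = 2 ∨ e = 3 ∨ e = 4 ∨ e = 5 ∨ e = 6 ∨ e = 7 ∨ e = 8 ∨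
    e = 9 ∨ e = 10 ∨ e = 11 ∨ e = 12 ∨ e = 13 ∨ e = 14 := by decide

lemma data_J2 : data J2 = d2 := by
  funext j
  rcases cases15 j with rfl | rfl | rfl | rfl | rfl | rfl | rfl | rfl | rfl | rfl | rfl | rfl | rfl |
    rfl | rfl <;> simp only [data, J2, d2, c2, Matrix.cons_val] <;> norm_num

/-- comparison data -/
noncomputable def dd (J : Par) : Fin 15 → ℝ :=
  ![0, 2, 2, 2, 1, 1, 1, 16, 1, 16, 1, J.2 0 ^ 2 + J.2 4 ^ 2, 10 - (J.2 0 ^ 2 + J.2 4 ^ 2),
    J.2 2 ^ 2 + J.2 6 ^ 2, 10 - (J.2 2 ^ 2 + J.2 6 ^ 2)]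

lemma dd_J2 : dd J2 = d2 := by
  funext j
  rcases cases15 j with rfl | rfl | rfl | rfl | rfl | rfl | rfl | rfl | rfl | rfl | rfl | rfl | rfl |
    rfl | rfl <;> simp only [dd, J2, d2, c2, Matrix.cons_val] <;> norm_num

lemma SS_dd (J : Par) : SS (dd J) = SS d2 := by
  refine SS_rho (fun j hj => ?_) rfl rfl ?_ ?_
  · rcases cases15 j with rfl | rfl | rfl | rfl | rfl | rfl | rfl | rfl | rfl | rfl | rfl | rfl | rfl |
      rfl | rfl <;> first | exact absurd hj (by decide) | (simp only [dd, d2, c2, Matrix.cons_val]; norm_num)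
  · simp only [dd, d2, c2, Matrix.cons_val]; norm_num
  · simp only [dd, d2, c2, Matrix.cons_val]; norm_num

lemma pair_eq {p q p' q' : ℝ} (hp : 0 < p) (hq : 0 < q) (hp' : 0 < p') (hq' : 0 < q')
    (h1 : (p * q) ^ 2 = 1) (h2 : (p' * q') ^ 2 = 16) (h3 : p' ^ 2 + q' ^ 2 = 10 - (p ^ 2 + q ^ 2)) :
    p = 1 ∧ q = 1 ∧ p' = 2 ∧ q' = 2 := by
  have a1 : p * q = 1 := by nlinarith [mul_pos hp hq]
  have a2 : p' * q' = 4 := by nlinarith [mul_pos hp' hq']
  have a3 : p = q := by nlinarith [sq_nonneg (p - q), sq_nonneg (p' - q')]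
  have a4 : p' = q' := by nlinarith [sq_nonneg (p - q), sq_nonneg (p' - q')]
  subst a3 a4
  refine ⟨by nlinarith, by nlinarith, by nlinarith, by nlinarith⟩

lemma data_cont : Continuous data := by
  refine continuous_pi fun j => ?_
  rcases cases15 j with rfl | rfl | rfl | rfl | rfl | rfl | rfl | rfl | rfl | rfl | rfl | rfl | rfl |
    rfl | rfl <;> simp only [data, Matrix.cons_val] <;> fun_prop

lemma dd_cont : Continuous dd := by
  refine continuous_pi fun j => ?_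
  rcases cases15 j with rfl | rfl | rfl | rfl | rfl | rfl | rfl | rfl | rfl | rfl | rfl | rfl | rfl |
    rfl | rfl <;> simp only [dd, Matrix.cons_val] <;> fun_prop

lemma Ψ_eq {d d' : Fin 15 → ℝ} (h : ∀ n, coeff (n + 1) (SS d) = coeff (n + 1) (SS d'))
    (h1 : d 11 = d' 11) (h2 : d 13 = d' 13) : Ψ d = Ψ d' := by
  funext k
  simp only [Ψ, h1, h2, h (k + 1)]

lemma eq_J2 {J : Par} (hpos : ∀ e, 0 < J.2 e) (h4 : data J = dd J) : J = J2 := by
  have a0 := congrFun h4 0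
  have a1 := congrFun h4 1
  have a2 := congrFun h4 2
  have a3 := congrFun h4 3
  have a4 := congrFun h4 4
  have a5 := congrFun h4 5
  have a6 := congrFun h4 6
  have a7 := congrFun h4 7
  have a8 := congrFun h4 8
  have a9 := congrFun h4 9
  have a10 := congrFun h4 10
  have a12 := congrFun h4 12
  have a14 := congrFun h4 14
  simp only [data, dd, Matrix.cons_val] at a0 a1 a2 a3 a4 a5 a6 a7 a8 a9 a10 a12 a14
  obtain ⟨b0, b4, b1, b5⟩ := pair_eq (hpos 0) (hpos 4) (hpos 1) (hpos 5) a6 a7 a12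
  obtain ⟨b2, b6, b3, b7⟩ := pair_eq (hpos 2) (hpos 6) (hpos 3) (hpos 7) a8 a9 a14
  have b8 : J.2 8 = 1 := by nlinarith [hpos 8]
  refine Prod.ext (funext fun x => ?_) (funext fun e => ?_)
  · rcases cases6 x with rfl | rfl | rfl | rfl | rfl | rfl <;> simp only [J2, Matrix.cons_val] <;>
      assumption
  · rcases cases9 e with rfl | rfl | rfl | rfl | rfl | rfl | rfl | rfl | rfl <;>
      simp only [J2, Matrix.cons_val] <;> assumption

lemma isolated : ∀ᶠ J : Par in 𝓝 J2, (∀ e, 0 < J.2 e) →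
    (∀ n, coeff (n + 1) (SS (data J)) = coeff (n + 1) (SS d2)) → J = J2 := by
  obtain ⟨g, hg⟩ := Ψ_inj
  have t1 : Tendsto data (𝓝 J2) (𝓝 d2) := by rw [← data_J2]; exact data_cont.tendsto J2
  have t2 : Tendsto dd (𝓝 J2) (𝓝 d2) := by rw [← dd_J2]; exact dd_cont.tendsto J2
  filter_upwards [t1.eventually hg, t2.eventually hg] with J h1 h2 hpos hm
  have h3 : Ψ (data J) = Ψ (dd J) :=
    Ψ_eq (fun n => by rw [SS_dd, hm]) (by simp only [data, dd, Matrix.cons_val])
      (by simp only [data, dd, Matrix.cons_val])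
  exact eq_J2 hpos (by rw [← h1, h3, h2])

/-- a curve of parameters -/
noncomputable def J1 (t : ℝ) : Par :=
  (![1, 1, 1, 1, 2, 2], ![t, (√(19 - t ^ 2 - t⁻¹ ^ 2) + √(3 - t ^ 2 - t⁻¹ ^ 2)) / 2, 1, 2, t⁻¹,
    (√(19 - t ^ 2 - t⁻¹ ^ 2) - √(3 - t ^ 2 - t⁻¹ ^ 2)) / 2, 1, 2, 1])

lemma J1_spec {t : ℝ} (h1 : 1 ≤ t) (h2 : t ≤ 6 / 5) : (∀ e, 0 < (J1 t).2 e) ∧ SS (data (J1 t)) = SS d2 := by
  have h3 : 0 < t⁻¹ := by positivity
  have h4 : t⁻¹ ≤ 1 := inv_le_one_of_one_le₀ h1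
  have h5 : 0 ≤ 3 - t ^ 2 - t⁻¹ ^ 2 := by nlinarith
  have h6 := Real.sq_sqrt h5
  have h7 := Real.sq_sqrt (show 0 ≤ 19 - t ^ 2 - t⁻¹ ^ 2 by linarith)
  have h8 := Real.sqrt_lt_sqrt h5 (show 3 - t ^ 2 - t⁻¹ ^ 2 < 19 - t ^ 2 - t⁻¹ ^ 2 by linarith)
  have h9 := Real.sqrt_nonneg (3 - t ^ 2 - t⁻¹ ^ 2)
  have h10 : t * t⁻¹ = 1 := mul_inv_cancel₀ (by linarith)
  constructor
  · intro e
    rcases cases9 e with rfl | rfl | rfl | rfl | rfl | rfl | rfl | rfl | rfl <;>
      simp only [J1, Matrix.cons_val] <;> linarith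
  · refine Eq.trans ?_ SS_gauge
    refine SS_rho (fun j hj => ?_) rfl rfl ?_ ?_
    · have h11 : (√(19 - t ^ 2 - t⁻¹ ^ 2) + √(3 - t ^ 2 - t⁻¹ ^ 2)) / 2 *
          ((√(19 - t ^ 2 - t⁻¹ ^ 2) - √(3 - t ^ 2 - t⁻¹ ^ 2)) / 2) = 4 := by
        linear_combination h7 / 4 - h6 / 4
      rcases cases15 j with rfl | rfl | rfl | rfl | rfl | rfl | rfl | rfl | rfl | rfl | rfl | rfl | rfl |
        rfl | rfl <;> first | exact absurd hj (by decide) |
          (simp only [data, J1, c1, Matrix.cons_val, h10, h11]; norm_num)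
    · simp only [data, J1, c1, Matrix.cons_val]
      push_cast
      linear_combination h7 / 2 + h6 / 2
    · simp only [data, J1, c1, Matrix.cons_val]
      norm_num

lemma J1_cont : ContinuousAt J1 1 := by
  unfold J1
  fun_prop (disch := norm_num)

theorem not_manifold (U : bell.UniversalCover) (n : ℕ) :
    IsEmpty (ChartedSpace (EuclideanSpace ℝ (Fin n)) (isoDOS U J2)) := by
  refine ⟨fun cs => ?_⟩
  have pos2 : ∀ e, 0 < J2.2 e := by
    intro e
    rcases cases9 e with rfl | rfl | rfl | rfl | rfl | rfl | rfl | rfl | rfl <;>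
      simp only [J2, Matrix.cons_val] <;> norm_num
  have m2 : J2 ∈ isoDOS U J2 := ⟨pos2, fun _ _ => rfl⟩
  have m1 : ∀ t, 1 ≤ t → t ≤ 6 / 5 → J1 t ∈ isoDOS U J2 := by
    intro t h1 h2
    refine ⟨(J1_spec h1 h2).1, dos_eq_of_moments U _ _ fun n => ?_⟩
    rw [tr_bell, tr_bell, (J1_spec h1 h2).2, data_J2]
  have iso2 : IsOpen ({⟨J2, m2⟩} : Set (isoDOS U J2)) := by
    rw [isOpen_iff_mem_nhds]
    rintro _ rfl
    have := (continuous_subtype_val.tendsto (⟨J2, m2⟩ : isoDOS U J2)).eventually isolated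
    filter_upwards [this] with J hJ
    refine Subtype.ext (hJ J.2.1 fun n => ?_)
    rw [← tr_bell U, ← data_J2, ← tr_bell U]
    exact moments_of_dos_eq U _ _ J.2.2 n
  have hsub : Subsingleton (EuclideanSpace ℝ (Fin n)) := by
    by_contra h
    rw [not_subsingleton_iff_nontrivial] at h
    have h1 := (chartAt (EuclideanSpace ℝ (Fin n)) (⟨J2, m2⟩ : isoDOS U J2)).isOpen_image_of_subset_source
      iso2 (Set.singleton_subset_iff.2 (mem_chart_source _ _))
    rw [Set.image_singleton] at h1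
    exact not_isOpen_singleton _ h1
  let p : isoDOS U J2 := ⟨J1 1, m1 1 le_rfl (by norm_num)⟩
  obtain ⟨W, hW, hW'⟩ := isOpen_induced_iff.1 (chartAt (EuclideanSpace ℝ (Fin n)) p).open_source
  have hp : J1 1 ∈ W := by
    have := mem_chart_source (EuclideanSpace ℝ (Fin n)) p
    rw [← hW'] at this
    exact this
  have h1 : ∀ᶠ t in 𝓝[>] (1 : ℝ), J1 t ∈ W :=
    nhdsWithin_le_nhds (J1_cont.eventually (hW.mem_nhds hp))
  obtain ⟨t, ht1, ht2⟩ := (h1.and (Ioo_mem_nhdsGT (show (1 : ℝ) < 6 / 5 by norm_num))).exists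
  have h2 : (⟨J1 t, m1 t ht2.1.le ht2.2.le⟩ : isoDOS U J2) = p :=
    (chartAt (EuclideanSpace ℝ (Fin n)) p).injOn (by rw [← hW']; exact ht1) (mem_chart_source _ _)
      (Subsingleton.elim _ _)
  have h3 : t = 1 := congrArg (fun J : isoDOS U J2 => J.1.2 0) h2
  exact ht2.1.ne' h3

theorem main : ∃ (V E : Type) (_ : Fintype V) (_ : Fintype E) (_ : DecidableEq V)
    (G : Multigraph V E), G.Connected ∧ (∀ x, 2 ≤ G.degree x) ∧ Nonempty G.UniversalCover ∧
    ∃ J₀ : (V → ℝ) × (E → ℝ), (∀ e, 0 < J₀.2 e) ∧ ∀ (U : G.UniversalCover) (n : ℕ),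
      IsEmpty (ChartedSpace (EuclideanSpace ℝ (Fin n)) (isoDOS U J₀)) := by
  refine ⟨Fin 6, Fin 9, inferInstance, inferInstance, inferInstance, bell, bell_connected, bell_degree,
    exists_cover bell bell_connected, J2, fun e => ?_, not_manifold⟩
  rcases cases9 e with rfl | rfl | rfl | rfl | rfl | rfl | rfl | rfl | rfl <;>
      simp only [J2, Matrix.cons_val] <;> norm_num

end Pool.Agent.H431Z.Iso
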